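import Mathlib

set_option autoImplicit false

open Finset

namespace Pool.Agent.H45.R4

/-- Gaussian binomial coefficients -/
def gb {R : Type} [CommRing R] (q : R) : ℕ → ℕ → R
  | _, 0 => 1
  | 0, _ + 1 => 0
  | n + 1, k + 1 => gb q n k + q ^ (k + 1) * gb q n (k + 1)

section
variable {R : Type} [CommRing R]

@[simp] lemma gb_zero (q : R) (n : ℕ) : gb q n 0 = 1 := by cases n <;> rfl
@[simp] lemma gb_zero_succ (q : R) (k : ℕ) : gb q 0 (k + 1) = 0 := rfl
lemma gb_succ (q : R) (n k : ℕ) : gb q (n + 1) (k + 1) = gb q n k + q ^ (k + 1) * gb q n (k + 1) := rfl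

/-- product formula -/
lemma gb_prod (q : R) (n k : ℕ) :
    gb q n k * ∏ i ∈ range k, (q ^ (i + 1) - 1) = ∏ i ∈ range k, (q ^ (n - i) - 1) := by
  induction n generalizing k with
  | zero =>
    cases k with
    | zero => simp
    | succ k => rw [gb_zero_succ, zero_mul, prod_range_succ']; simp
  | succ n ih =>
    cases k with
    | zero => simp
    | succ k =>
      have h1 := ih k
      have h2 := ih (k + 1)
      rw [gb_succ, add_mul, mul_assoc, h2]
      rw [prod_range_succ, ← mul_assoc, h1, prod_range_succ]
      have h3 : ∏ i ∈ range (k + 1), (q ^ (n + 1 - i) - 1)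
          = (∏ i ∈ range k, (q ^ (n - i) - 1)) * (q ^ (n + 1) - 1) := by
        rw [prod_range_succ']
        congr 1
        apply prod_congr rfl
        intro i _
        congr 2
        omega
      rw [h3]
      rcases le_or_gt k n with hkn | hkn
      · have : q ^ (n + 1) = q ^ (k + 1) * q ^ (n - k) := by
          rw [← pow_add]; congr 1; omega
        rw [this]; ring
      · have : ∏ i ∈ range k, (q ^ (n - i) - 1) = 0 := by
          apply prod_eq_zero (mem_range.mpr hkn)
          simp
        rw [this]; simp

/-- reduction of Gaussian binomials -/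
lemma gb_map {S : Type} [CommRing S] (φ : R →+* S) (q : R) (hq : φ q = 1) (n k : ℕ) :
    φ (gb q n k) = (n.choose k : S) := by
  induction n generalizing k with
  | zero => cases k <;> simp
  | succ n ih =>
    cases k with
    | zero => simp
    | succ k =>
      rw [gb_succ, map_add, map_mul, map_pow, hq, one_pow, one_mul, ih, ih, Nat.choose_succ_succ]
      push_cast; ring

end

/-- Lucas -/
lemma lucas_ind (p : ℕ) [hp : Fact p.Prime] (l : ℕ) : ∀ x : ℕ, 1 ≤ x →
    ((x - 1).choose (p ^ l - 1) : ZMod p) = if p ^ l ∣ x then 1 else 0 := by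
  induction l with
  | zero => intro x hx; simp
  | succ l ih =>
    intro x hx
    have hpp := hp.out
    have hp2 : 2 ≤ p := hpp.two_le
    have hpl : 0 < p ^ l := pow_pos hpp.pos _
    have hL := Choose.choose_modEq_choose_mod_mul_choose_div_nat (n := x - 1) (k := p ^ (l + 1) - 1) (p := p)
    have hL' : (((x - 1).choose (p ^ (l + 1) - 1) : ℕ) : ZMod p)
        = ((((x - 1) % p).choose ((p ^ (l + 1) - 1) % p) * ((x - 1) / p).choose ((p ^ (l + 1) - 1) / p) : ℕ) : ZMod p) :=
      (ZMod.natCast_eq_natCast_iff _ _ _).mpr hL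
    have e1 : p ^ (l + 1) - 1 = p * (p ^ l - 1) + (p - 1) := by
      rw [pow_succ']
      obtain ⟨a, ha⟩ : ∃ a, p ^ l = a + 1 := ⟨p ^ l - 1, by omega⟩
      rw [ha]
      simp only [Nat.add_sub_cancel]
      rw [mul_add]; omega
    have e2 : (p ^ (l + 1) - 1) % p = p - 1 := by
      rw [e1, Nat.mul_add_mod]; exact Nat.mod_eq_of_lt (by omega)
    have e3 : (p ^ (l + 1) - 1) / p = p ^ l - 1 := by
      rw [e1, Nat.mul_add_div hpp.pos, Nat.div_eq_of_lt (by omega), add_zero]
    rw [hL', e2, e3]
    by_cases hx1 : p ∣ x
    · obtain ⟨y, rfl⟩ := hx1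
      have hy : 1 ≤ y := by
        rcases Nat.eq_zero_or_pos y with h | h
        · rw [h] at hx; simp at hx
        · exact h
      have e4 : p * y - 1 = p * (y - 1) + (p - 1) := by
        obtain ⟨a, rfl⟩ : ∃ a, y = a + 1 := ⟨y - 1, by omega⟩
        simp only [Nat.add_sub_cancel]
        rw [mul_add]; omega
      have e5 : (p * y - 1) % p = p - 1 := by
        rw [e4, Nat.mul_add_mod]; exact Nat.mod_eq_of_lt (by omega)
      have e6 : (p * y - 1) / p = y - 1 := by
        rw [e4, Nat.mul_add_div hpp.pos, Nat.div_eq_of_lt (by omega), add_zero]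
      rw [e5, e6, Nat.choose_self, one_mul, ih y hy]
      have : p ^ (l + 1) ∣ p * y ↔ p ^ l ∣ y := by
        rw [pow_succ', mul_dvd_mul_iff_left hpp.ne_zero]
      simp only [this]
    · have e7 : (x - 1) % p < p - 1 := by
        have h1 : (x - 1) % p < p := Nat.mod_lt _ hpp.pos
        by_contra h2
        have h3 : (x - 1) % p = p - 1 := by omega
        apply hx1
        have h4 := Nat.div_add_mod (x - 1) p
        refine ⟨(x - 1) / p + 1, ?_⟩
        rw [mul_add]; omega
      rw [Nat.choose_eq_zero_of_lt e7, zero_mul]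
      have : ¬ p ^ (l + 1) ∣ x := fun h => hx1 ((dvd_pow_self p (by omega)).trans h)
      simp [this]

/-- sum of the powers `p ^ v_p(m)` -/
lemma sum_pow_val (p : ℕ) [hp : Fact p.Prime] (l : ℕ) :
    ∑ m ∈ range (p ^ l - 1), p ^ (padicValNat p (m + 1)) = l * p ^ (l - 1) * (p - 1) := by
  have hpp := hp.out
  have hp2 : 2 ≤ p := hpp.two_le
  -- work with `range (p ^ l)` and the value `0` at `0`
  have key : ∀ l : ℕ, ∑ m ∈ range (p ^ l), (if m = 0 then 0 else p ^ (padicValNat p m)) = l * p ^ (l - 1) * (p - 1) := by
    intro l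
    induction l with
    | zero => simp
    | succ l ih =>
      have h1 : ∑ m ∈ range (p ^ (l + 1)), (if m = 0 then 0 else p ^ (padicValNat p m))
          = ∑ a ∈ range (p ^ l), ∑ r ∈ range p, (if p * a + r = 0 then 0 else p ^ (padicValNat p (p * a + r))) := by
        rw [← sum_product']
        symm
        apply sum_bij' (fun (x : ℕ × ℕ) _ => p * x.1 + x.2) (fun m _ => (m / p, m % p))
        · intro x hx
          simp only [mem_product, mem_range] at hx ⊢
          calc p * x.1 + x.2 < p * x.1 + p := by omega
            _ = p * (x.1 + 1) := by ring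
            _ ≤ p * p ^ l := Nat.mul_le_mul_left _ hx.1
            _ = p ^ (l + 1) := by rw [pow_succ']
        · intro m hm
          simp only [mem_product, mem_range] at hm ⊢
          refine ⟨?_, Nat.mod_lt _ hpp.pos⟩
          rw [Nat.div_lt_iff_lt_mul hpp.pos]
          rwa [pow_succ] at hm
        · intro x hx
          simp only [mem_product, mem_range] at hx
          ext
          · simp [Nat.mul_add_div hpp.pos, Nat.div_eq_of_lt hx.2]
          · simp [Nat.mul_add_mod, Nat.mod_eq_of_lt hx.2]
        · intro m _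
          exact Nat.div_add_mod m p
        · intro x _; rfl
      rw [h1]
      have h2 : ∀ a ∈ range (p ^ l), ∑ r ∈ range p, (if p * a + r = 0 then 0 else p ^ (padicValNat p (p * a + r)))
          = (p - 1) + p * (if a = 0 then 0 else p ^ (padicValNat p a)) := by
        intro a _
        obtain ⟨p', hp'⟩ : ∃ p', p = p' + 1 := ⟨p - 1, by omega⟩
        have h3 : ∑ r ∈ range p, (if p * a + r = 0 then 0 else p ^ (padicValNat p (p * a + r)))
            = ∑ r ∈ range p', (if p * a + (r + 1) = 0 then 0 else p ^ (padicValNat p (p * a + (r + 1))))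
              + (if p * a + 0 = 0 then 0 else p ^ (padicValNat p (p * a + 0))) := by
          conv_lhs => rw [show range p = range (p' + 1) by rw [hp']]
          rw [sum_range_succ']
        rw [h3]
        have h4 : ∑ r ∈ range p', (if p * a + (r + 1) = 0 then 0 else p ^ (padicValNat p (p * a + (r + 1)))) = p - 1 := by
          rw [sum_congr rfl (g := fun _ => 1)]
          · simp [hp']
          · intro r hr
            rw [mem_range] at hr
            rw [if_neg (by omega)]
            have : ¬ p ∣ p * a + (r + 1) := by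
              intro h
              have h5 : p ∣ r + 1 := (Nat.dvd_add_right (dvd_mul_right p a)).mp h
              have := Nat.le_of_dvd (by omega) h5
              omega
            rw [padicValNat.eq_zero_of_not_dvd this, pow_zero]
        rw [h4]
        congr 1
        by_cases ha : a = 0
        · simp [ha]
        · rw [add_zero, if_neg (by positivity), if_neg ha, padicValNat.mul hpp.ne_zero ha, padicValNat.self hpp.one_lt,
            pow_add, pow_one]
      rw [sum_congr rfl h2, sum_add_distrib, ← mul_sum, ih]
      simp only [sum_const, card_range, smul_eq_mul, Nat.add_sub_cancel]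
      rcases Nat.eq_zero_or_pos l with h0 | h0
      · subst h0; simp
      · obtain ⟨l', rfl⟩ : ∃ l', l = l' + 1 := ⟨l - 1, by omega⟩
        simp only [Nat.add_sub_cancel]
        rw [pow_succ]; ring
  have h0 := key l
  obtain ⟨a, ha⟩ : ∃ a, p ^ l = a + 1 := ⟨p ^ l - 1, by have := pow_pos hpp.pos l; omega⟩
  rw [ha, sum_range_succ'] at h0
  rw [ha, Nat.add_sub_cancel]
  simpa using h0

end Pool.Agent.H45.R4
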