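import Mathlib
import Pool.Agent.H56.RDSNum
import Pool.Agent.H56.RDSChar
import Pool.Agent.H45.R4.Gb

set_option autoImplicit false

open Finset NumberField

namespace Pool.Agent.H45.R4

open Pool.Agent.H56.RDS

variable {p k : ℕ} [hp : Fact p.Prime] (K : Type) [Field K] [NumberField K]
  [IsCyclotomicExtension {p ^ (k + 1)} ℚ K]

/-- norms of the elements `ζ ^ m - 1` -/
lemma norm_pow_sub_one (hp2 : p ≠ 2) {z : K} (hz : IsPrimitiveRoot z (p ^ (k + 1))) (m : ℕ) (hm0 : m ≠ 0)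
    (hm : padicValNat p m ≤ k) : Algebra.norm ℤ (hz.toInteger ^ m - 1) = p ^ p ^ (padicValNat p m) := by
  have hpp := hp.out
  obtain ⟨u, hu⟩ := pow_padicValNat_dvd (p := p) (n := m)
  have hu2 : ¬ p ∣ u := by
    intro h
    obtain ⟨w, rfl⟩ := h
    have h1 : p ^ (padicValNat p m + 1) ∣ m := by
      rw [pow_succ, hu]
      conv_rhs => rw [hu]
      exact ⟨w, by ring⟩
    exact pow_succ_padicValNat_not_dvd hm0 h1
  have hcop : Nat.Coprime u (p ^ (k + 1)) := by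
    apply Nat.Coprime.pow_right
    exact (Nat.coprime_comm.mp ((Nat.Prime.coprime_iff_not_dvd hpp).mpr hu2))
  have hz' : IsPrimitiveRoot (z ^ u) (p ^ (k + 1)) := hz.pow_of_coprime u hcop
  have h2 : hz.toInteger ^ m - 1 = hz'.toInteger ^ p ^ (padicValNat p m) - 1 := by
    apply RingOfIntegers.ext
    have h3 : (z : K) ^ m = z ^ (p ^ (padicValNat p m) * u) := congrArg (fun t => z ^ t) hu
    have h4 : ((hz.toInteger : 𝓞 K) : K) = z := rfl
    have h5 : ((hz'.toInteger : 𝓞 K) : K) = z ^ u := rfl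
    simp only [map_sub, map_pow, map_one, h4, h5]
    rw [h3, ← pow_mul, mul_comm u]
  rw [h2]
  exact hz'.norm_toInteger_pow_sub_one_of_prime_ne_two hm hp2

/-- valuation of a sum all of whose conjugates have absolute value `p ^ (b / 2)` -/
lemma dvd_of_norms (hp2 : p ≠ 2) {z : K} (hz : IsPrimitiveRoot z (p ^ (k + 1))) (a a' : 𝓞 K) (b : ℕ)
    (h : ∀ φ : K →+* ℂ, ‖φ a‖ ^ 2 = (p : ℝ) ^ b) (h' : a * a' = (p : 𝓞 K) ^ b) :
    ∃ i : ℕ, 2 * i = b * Module.finrank ℚ K ∧ Associated a ((hz.toInteger - 1) ^ i) := by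
  have hpp := hp.out
  obtain ⟨i, hi⟩ := assoc_pow K hz a a' b h'
  refine ⟨i, ?_, hi⟩
  have hN : Algebra.norm ℤ (hz.toInteger - 1) = p := by
    have := hz.norm_toInteger_pow_sub_one_of_prime_ne_two (s := 0) (Nat.zero_le _) hp2
    simpa using this
  have h1 : (Algebra.norm ℤ a).natAbs = p ^ i := by
    have h2 := hi.map (Algebra.norm ℤ)
    rw [map_pow, hN] at h2
    have h3 := Int.associated_iff_natAbs.mp h2
    rw [h3, Int.natAbs_pow, Int.natAbs_natCast]
  have h2 : ((Algebra.norm ℤ a : ℤ) : ℚ) = Algebra.norm ℚ (a : K) := by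
    have := Algebra.norm_eq_iff ℤ (Sₘ := K) (Rₘ := ℚ) (M := nonZeroDivisors ℤ) le_rfl (a := a) (b := Algebra.norm ℤ a)
    simpa using (this.mp rfl).symm
  have h3 := Algebra.norm_eq_prod_embeddings ℚ ℂ (a : K)
  have h4 : ‖algebraMap ℚ ℂ (Algebra.norm ℚ (a : K))‖ ^ 2 = ((p : ℝ) ^ b) ^ Module.finrank ℚ K := by
    rw [h3, norm_prod, ← prod_pow, prod_congr rfl (g := fun _ => (p : ℝ) ^ b)]
    · rw [prod_const, card_univ, AlgHom.card]
    · intro σ _
      exact h (σ : K →+* ℂ)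
  rw [← h2] at h4
  have h5 : ‖algebraMap ℚ ℂ ((Algebra.norm ℤ a : ℤ) : ℚ)‖ = ((Algebra.norm ℤ a).natAbs : ℝ) := by
    simp [Nat.cast_natAbs]
  rw [h5, h1] at h4
  have h6 : p ^ (i * 2) = p ^ (b * Module.finrank ℚ K) := by
    rw [pow_mul, pow_mul]; exact_mod_cast h4
  have h7 := Nat.pow_right_injective hpp.two_le h6
  omega

end Pool.Agent.H45.R4
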