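import Mathlib
import Pool.Agent.H45.R4.Val

set_option autoImplicit false

open Finset NumberField

namespace Pool.Agent.H45.R4

open Pool.Agent.H56.RDS

section expand

variable {G R κ : Type} [AddCommGroup G] [CommRing R] [DecidableEq κ]

lemma expand (s : Finset κ) (χ : κ → AddChar G R) (c : κ → R) (J : Ideal R) (D : Finset G)
    (hJ : ∀ ψ : AddChar G R, ∑ d ∈ D, ψ d ∈ J) (g0 : G) :
    ∑ d ∈ D, ∏ a ∈ s, (χ a (d - g0) - c a) ∈ J := by
  have h1 : ∀ d ∈ D, ∏ a ∈ s, (χ a (d - g0) - c a)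
      = ∑ S ∈ s.powerset, (∏ a ∈ S, χ a) d * ((∏ a ∈ S, χ a) (-g0) * ∏ a ∈ s \ S, (- c a)) := by
    intro d _
    simp only [sub_eq_add_neg (χ _ _)]
    rw [prod_add]
    apply sum_congr rfl
    intro S _
    rw [← mul_assoc, ← AddChar.map_add_eq_mul, ← sub_eq_add_neg, AddChar.prod_apply]
  rw [sum_congr rfl h1, sum_comm]
  apply Ideal.sum_mem
  intro S _
  rw [← sum_mul]
  exact Ideal.mul_mem_right _ _ (hJ _)

end expand

variable {p k : ℕ} [hp : Fact p.Prime] (K : Type) [Field K] [NumberField K]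
  [IsCyclotomicExtension {p ^ (k + 1)} ℚ K]
variable {G : Type} [AddCommGroup G] [Fintype G] [DecidableEq G]

/-- all character sums are divisible by `λ ^ T` -/
lemma char_dvd (hp2 : p ≠ 2) {z : K} (hz : IsPrimitiveRoot z (p ^ (k + 1))) (b T : ℕ)
    (hT : 2 * T = b * Module.finrank ℚ K) (N : AddSubgroup G) (D : Finset G) (hcD : D.card = p ^ b)
    (hcN : Nat.card N = p ^ b)
    (hD1 : ∀ g : G, g ∉ N → ((D ×ˢ D).filter (fun x => x.1 - x.2 = g)).card = 1)
    (hD0 : ∀ g : G, g ∈ N → g ≠ 0 → ((D ×ˢ D).filter (fun x => x.1 - x.2 = g)).card = 0)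
    (χ : AddChar G (𝓞 K)) : (hz.toInteger - 1) ^ T ∣ ∑ d ∈ D, χ d := by
  classical
  -- complex characters
  let ch : (K →+* ℂ) → AddChar G ℂ := fun φ =>
    MonoidHom.compAddChar ((φ : K →* ℂ).comp ((algebraMap (𝓞 K) K : 𝓞 K →+* K) : 𝓞 K →* K)) χ
  have hch : ∀ φ g, ch φ g = φ (χ g) := fun φ g => rfl
  have hcs : ∀ φ : K →+* ℂ, cs (ch φ) D = φ ((∑ d ∈ D, χ d : 𝓞 K) : K) := by
    intro φ
    unfold cs
    simp only [hch]
    push_cast
    rw [map_sum]
  have hinj : ∀ (φ : K →+* ℂ) (x y : 𝓞 K), φ x = φ y → x = y := fun φ x y h =>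
    RingOfIntegers.ext (φ.injective h)
  by_cases h1 : ∃ x ∈ N, χ x ≠ 1
  · obtain ⟨x, hx, hx1⟩ := h1
    have h2 : ∀ φ : K →+* ℂ, ‖φ ((∑ d ∈ D, χ d : 𝓞 K) : K)‖ ^ 2 = (p : ℝ) ^ b := by
      intro φ
      rw [← hcs, norm_sq_of_nontrivial N D hD1 hD0 (ch φ) ⟨x, hx, ?_⟩, hcD]
      · push_cast; rfl
      · intro h
        apply hx1
        apply hinj φ
        rw [← hch, h]; simp
    have h3 : (∑ d ∈ D, χ d) * (∑ d ∈ D, χ (-d)) = (p : 𝓞 K) ^ b := by
      obtain ⟨φ⟩ : Nonempty (K →+* ℂ) := inferInstance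
      apply hinj φ
      have h4 : φ ((∑ d ∈ D, χ (-d) : 𝓞 K) : K) = (starRingEnd ℂ) (φ ((∑ d ∈ D, χ d : 𝓞 K) : K)) := by
        push_cast
        rw [map_sum, map_sum, map_sum]
        apply sum_congr rfl
        intro d _
        rw [← hch, ← hch, AddChar.map_neg_eq_conj]
      have h5 : φ (((∑ d ∈ D, χ d) * (∑ d ∈ D, χ (-d)) : 𝓞 K) : K)
          = φ ((∑ d ∈ D, χ d : 𝓞 K) : K) * φ ((∑ d ∈ D, χ (-d) : 𝓞 K) : K) := by
        exact map_mul (φ.comp (algebraMap (𝓞 K) K)) _ _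
      rw [h5, h4, Complex.mul_conj, Complex.normSq_eq_norm_sq, h2 φ]
      push_cast
      simp
    obtain ⟨i, hi, hi2⟩ := dvd_of_norms K hp2 hz _ _ b h2 h3
    have : i = T := by omega
    rw [this] at hi2
    exact hi2.symm.dvd
  · push Not at h1
    by_cases h2 : ∃ x, χ x ≠ 1
    · obtain ⟨x, hx⟩ := h2
      have h3 : ∑ d ∈ D, χ d = 0 := by
        obtain ⟨φ⟩ : Nonempty (K →+* ℂ) := inferInstance
        apply hinj φ
        rw [← hcs, norm_sq_of_trivial N D hD1 hD0 (ch φ) ?_ ⟨x, ?_⟩ (by rw [hcN, hcD])]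
        · simp
        · intro y hy
          rw [hch, h1 y hy]; simp
        · intro h
          apply hx
          apply hinj φ
          rw [← hch, h]; simp
      rw [h3]; exact dvd_zero _
    · push Not at h2
      have h3 : ∑ d ∈ D, χ d = (p : 𝓞 K) ^ b := by
        rw [sum_congr rfl (fun d _ => h2 d), sum_const, nsmul_eq_mul, mul_one, hcD]
        push_cast; rfl
      rw [h3]
      have h4 : Associated ((p : 𝓞 K) ^ b) ((hz.toInteger - 1) ^ (Module.finrank ℚ K * b)) := by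
        rw [pow_mul]; exact (assoc_p K hz).pow_pow
      refine (pow_dvd_pow _ ?_).trans h4.symm.dvd
      nlinarith

end Pool.Agent.H45.R4
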