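import Mathlib

set_option autoImplicit false

open Finset

namespace Pool.Agent.H45.R4

lemma exists_coef_field (p : ℕ) [hp : Fact p.Prime] (h5 : 5 ≤ p) :
    ∃ x : ZMod p, quadraticChar (ZMod p) (x * (1 - x)) = -1 := by
  classical
  have hchar2 : ringChar (ZMod p) ≠ 2 := by rw [ZMod.ringChar_zmod_n]; omega
  have hne : quadraticChar (ZMod p) ≠ 1 := quadraticChar_ne_one hchar2
  have hinv : (quadraticChar (ZMod p))⁻¹ = quadraticChar (ZMod p) :=
    (quadraticChar_isQuadratic (F := ZMod p)).inv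
  have h1 := jacobiSum_nontrivial_inv hne
  rw [hinv, jacobiSum] at h1
  by_contra hcon
  push Not at hcon
  have h2 : ∀ x : ZMod p, x ∈ univ \ ({0, 1} : Finset (ZMod p)) →
      quadraticChar (ZMod p) x * quadraticChar (ZMod p) (1 - x) = 1 := by
    intro x hx
    simp only [mem_sdiff, mem_univ, true_and, mem_insert, mem_singleton, not_or] at hx
    rw [← map_mul]
    have h3 : x * (1 - x) ≠ 0 := mul_ne_zero hx.1 (sub_ne_zero.mpr (Ne.symm hx.2))
    rcases quadraticChar_dichotomy h3 with h4 | h4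
    · exact h4
    · exact absurd h4 (hcon x)
  have h3 : ∑ x : ZMod p, quadraticChar (ZMod p) x * quadraticChar (ZMod p) (1 - x) = (p : ℤ) - 2 := by
    rw [← sum_sdiff (subset_univ ({0, 1} : Finset (ZMod p))), sum_congr rfl h2]
    have h4 : ∑ x ∈ ({0, 1} : Finset (ZMod p)), quadraticChar (ZMod p) x * quadraticChar (ZMod p) (1 - x) = 0 := by
      apply sum_eq_zero
      intro x hx
      simp only [mem_insert, mem_singleton] at hx
      rcases hx with rfl | rfl
      · simp
      · simp
    rw [h4, add_zero, sum_const, card_sdiff_of_subset (subset_univ _), card_univ, ZMod.card,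
      card_pair zero_ne_one, nsmul_eq_mul, mul_one]
    rw [Nat.cast_sub (by omega)]
    norm_num
  rw [h3] at h1
  have h4 : quadraticChar (ZMod p) (-1) = 1 ∨ quadraticChar (ZMod p) (-1) = -1 :=
    quadraticChar_dichotomy (neg_ne_zero.mpr one_ne_zero)
  rcases h4 with h4 | h4
  · rw [h4] at h1; omega
  · rw [h4] at h1; omega

/-- four coefficients prime to `p` with sum `p ^ (k + 1)` and product a nonsquare -/
lemma exists_coef (p k : ℕ) [hp : Fact p.Prime] (h5 : 5 ≤ p) (hk : 1 ≤ k) :
    ∃ c : Fin 4 → ℕ, (∀ i, (c i).Coprime p) ∧ ∑ i, c i = p ^ (k + 1) ∧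
      ∏ i, quadraticChar (ZMod p) (c i) = -1 := by
  have hpp := hp.out
  obtain ⟨x, hx⟩ := exists_coef_field p h5
  have hx0 : x ≠ 0 := by
    rintro rfl
    simp at hx
  have hx1 : 1 - x ≠ 0 := by
    intro h
    rw [h, mul_zero, quadraticChar_zero] at hx
    norm_num at hx
  have h2 : (2 : ZMod p) ≠ 0 := by
    intro h
    have : (((2 : ℕ)) : ZMod p) = 0 := by exact_mod_cast h
    rw [ZMod.natCast_eq_zero_iff] at this
    have := Nat.le_of_dvd (by norm_num) this
    omega
  set a : ℕ := (-2 * x).val with ha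
  have haz : (a : ZMod p) = -2 * x := ZMod.natCast_zmod_val _
  have halt : a < p := ZMod.val_lt _
  have hpk : p * p ≤ p ^ (k + 1) := by
    rw [← pow_two]; exact Nat.pow_le_pow_right hpp.pos (by omega)
  have hle : a + 2 ≤ p ^ (k + 1) := by nlinarith
  set e : ℕ := p ^ (k + 1) - (a + 2) with he
  have hez : (e : ZMod p) = -(a + 2) := by
    rw [he, Nat.cast_sub hle]
    push_cast
    rw [ZMod.natCast_self, zero_pow (by omega)]
    ring
  have hcop : ∀ n : ℕ, (n : ZMod p) ≠ 0 → n.Coprime p := by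
    intro n hn
    rw [Nat.coprime_comm, Nat.Prime.coprime_iff_not_dvd hpp]
    intro hd
    exact hn ((ZMod.natCast_eq_zero_iff _ _).mpr hd)
  refine ⟨![1, 1, a, e], ?_, ?_, ?_⟩
  · intro i
    fin_cases i
    · exact Nat.coprime_one_left p
    · exact Nat.coprime_one_left p
    · apply hcop
      show (a : ZMod p) ≠ 0
      rw [haz]
      exact mul_ne_zero (neg_ne_zero.mpr h2) hx0
    · apply hcop
      show (e : ZMod p) ≠ 0
      rw [hez, haz]
      have : -(-2 * x + 2) = -2 * (1 - x) := by ring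
      rw [this]
      exact mul_ne_zero (neg_ne_zero.mpr h2) hx1
  · simp [Fin.sum_univ_four]
    omega
  · simp only [Fin.prod_univ_four]
    show quadraticChar (ZMod p) ((1 : ℕ) : ZMod p) * quadraticChar (ZMod p) ((1 : ℕ) : ZMod p) *
      quadraticChar (ZMod p) (a : ZMod p) * quadraticChar (ZMod p) (e : ZMod p) = -1
    rw [Nat.cast_one, map_one, one_mul, one_mul, ← map_mul, haz, hez, haz]
    have : -2 * x * -(-2 * x + 2) = 2 ^ 2 * (x * (1 - x)) := by ring
    rw [this, map_mul, quadraticChar_sq_one' h2, one_mul, hx]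

end Pool.Agent.H45.R4
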