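import Mathlib
import Pool.Agent.H56.RDSNum
import Pool.Agent.H45.R4.Val

set_option autoImplicit false

open Finset NumberField

namespace Pool.Agent.H45.R4

open Pool.Agent.H56.RDS

variable {p k : ℕ} [hp : Fact p.Prime]

/-- two integers with the same absolute values differ by a root of unity -/
lemma quot_root (K : Type) [Field K] [NumberField K] [IsCyclotomicExtension {p ^ (k + 1)} ℚ K] (hp2 : p ≠ 2)
    {z : K} (hz : IsPrimitiveRoot z (p ^ (k + 1))) (a1 a1' a2 a2' : 𝓞 K) (B : ℕ)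
    (h1 : a1 * a1' = (p : 𝓞 K) ^ B) (h2 : a2 * a2' = (p : 𝓞 K) ^ B)
    (n1 : ∀ φ : K →+* ℂ, ‖φ a1‖ ^ 2 = (p : ℝ) ^ B) (n2 : ∀ φ : K →+* ℂ, ‖φ a2‖ ^ 2 = (p : ℝ) ^ B) :
    ∃ ε : K, ∃ m : ℕ, (ε = 1 ∨ ε = -1) ∧ (a2 : K) = a1 * (ε * z ^ m) := by
  have hpp := hp.out
  have hpodd : Odd p := hpp.odd_of_ne_two hp2
  have hp0 : (p : ℝ) ≠ 0 := by exact_mod_cast hpp.ne_zero
  have hpB : (p : ℝ) ^ B ≠ 0 := pow_ne_zero _ hp0
  obtain ⟨i1, hi1, hs1⟩ := dvd_of_norms K hp2 hz a1 a1' B n1 h1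
  obtain ⟨i2, hi2, hs2⟩ := dvd_of_norms K hp2 hz a2 a2' B n2 h2
  have hi : i1 = i2 := by omega
  rw [← hi] at hs2
  obtain ⟨u, hu⟩ := hs1.trans hs2.symm
  have hcK : (a2 : K) = a1 * algebraMap (𝓞 K) K u := by
    rw [← hu]; exact map_mul (algebraMap (𝓞 K) K) _ _
  obtain ⟨M, hM, hcM⟩ := NumberField.Embeddings.pow_eq_one_of_norm_eq_one K ℂ
    (x := algebraMap (𝓞 K) K (u : 𝓞 K)) (u : 𝓞 K).isIntegral_coe (by
      intro φ
      have h3 := n2 φ
      have h4 := n1 φ
      rw [hcK, map_mul, norm_mul, mul_pow, h4] at h3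
      have h5 : ‖φ (algebraMap (𝓞 K) K (u : 𝓞 K))‖ ^ 2 = 1 := mul_left_cancel₀ hpB (by rw [h3, mul_one])
      exact (pow_eq_one_iff_of_nonneg (norm_nonneg _) two_ne_zero).mp h5)
  have hfin : IsOfFinOrder (algebraMap (𝓞 K) K (u : 𝓞 K)) := isOfFinOrder_iff_pow_eq_one.mpr ⟨M, hM, hcM⟩
  obtain ⟨m, _, hm⟩ := hz.exists_pow_or_neg_mul_pow_of_isOfFinOrder hpodd.pow hfin
  rcases hm with hm | hm
  · exact ⟨1, m, Or.inl rfl, by rw [one_mul, hcK, hm]⟩
  · exact ⟨-1, m, Or.inr rfl, by rw [hcK, hm]; ring⟩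

/-- no rational number has square `p ^ B`, `B` odd -/
lemma no_sqrt (r : ℚ) (B : ℕ) (hB : Odd B) (h : r ^ 2 = (p : ℚ) ^ B) : False := by
  have hpp := hp.out
  have hp0 : (p : ℚ) ≠ 0 := by exact_mod_cast hpp.ne_zero
  have hr : r ≠ 0 := by
    rintro rfl
    rw [zero_pow two_ne_zero] at h
    exact pow_ne_zero B hp0 h.symm
  have h1 := congrArg (padicValRat p) h
  rw [padicValRat.pow, padicValRat.pow, padicValRat.self hpp.one_lt, mul_one] at h1
  obtain ⟨w, hw⟩ := hB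
  rw [hw] at h1
  push_cast at h1
  omega

/-- complete description of the conjugates of a sum of absolute value `p ^ (B / 2)`, `B` odd -/
theorem key3K (K : Type) [Field K] [NumberField K] [IsCyclotomicExtension {p ^ (k + 1)} ℚ K] (hp2 : p ≠ 2)
    {ι : Type} (D : Finset ι) (i : ι → ℕ) (B : ℕ) (hB : Odd B) (ζ : ℂ) (hζ : IsPrimitiveRoot ζ (p ^ (k + 1)))
    (h : ∀ t : ℕ, t.Coprime p → ‖∑ d ∈ D, ζ ^ (t * i d)‖ ^ 2 = (p : ℝ) ^ B) :
    ∃ (m : ℕ) (α : ℂ), α ^ 4 = (p : ℂ) ^ (2 * B) ∧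
      ∀ t : ℕ, t.Coprime p → ∑ d ∈ D, ζ ^ (t * i d) = (quadraticChar (ZMod p) t : ℤ) * ζ ^ (m * t) * α := by
  classical
  have hpp : p.Prime := hp.out
  have hpodd : Odd p := hpp.odd_of_ne_two hp2
  obtain ⟨n, hn⟩ : ∃ n : ℕ, n = p ^ (k + 1) := ⟨_, rfl⟩
  have hnpos : 0 < n := by rw [hn]; exact pow_pos hpp.pos _
  have hp0 : (p : ℝ) ≠ 0 := by exact_mod_cast hpp.ne_zero
  have hz₀ : IsPrimitiveRoot (IsCyclotomicExtension.zeta (p ^ (k + 1)) ℚ K) (p ^ (k + 1)) :=
    IsCyclotomicExtension.zeta_spec _ _ _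
  obtain ⟨φ₀⟩ : Nonempty (K →+* ℂ) := inferInstance
  have hφz₀ := hz₀.map_of_injective φ₀.injective
  obtain ⟨s, hs1, hs2, hs3⟩ := hφz₀.isPrimitiveRoot_iff.mp hζ
  obtain ⟨z, hzdef⟩ : ∃ z : K, z = (IsCyclotomicExtension.zeta (p ^ (k + 1)) ℚ K) ^ s := ⟨_, rfl⟩
  have hz : IsPrimitiveRoot z (p ^ (k + 1)) := by rw [hzdef]; exact hz₀.pow_of_coprime s hs2
  have hφz : φ₀ z = ζ := by rw [hzdef, map_pow, hs3]
  have hzn : z ^ n = 1 := by rw [hn]; exact hz.pow_eq_one
  have hζn : ζ ^ n = 1 := by rw [hn]; exact hζ.pow_eq_one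
  have hz0 : z ≠ 0 := by
    rintro rfl
    rw [zero_pow hnpos.ne'] at hzn
    exact zero_ne_one hzn
  -- the sums
  set A : ℕ → K := fun t => ∑ d ∈ D, z ^ (t * i d) with hA
  set AI : ℕ → 𝓞 K := fun t => ∑ d ∈ D, hz.toInteger ^ (t * i d) with hAI
  have hzI : algebraMap (𝓞 K) K hz.toInteger = z := rfl
  have hcoe : ∀ t, algebraMap (𝓞 K) K (AI t) = A t := by
    intro t
    simp only [hAI, hA, map_sum, map_pow, hzI]
  have hφ₀A : ∀ t, φ₀ (A t) = ∑ d ∈ D, ζ ^ (t * i d) := by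
    intro t
    simp only [hA, map_sum, map_pow, hφz]
  have hφA : ∀ φ : K →+* ℂ, ∀ t : ℕ, t.Coprime p → ‖φ (A t)‖ ^ 2 = (p : ℝ) ^ B := by
    intro φ t ht
    have h1 := hz.map_of_injective φ.injective
    obtain ⟨s', _, hs2', hs3'⟩ := hζ.isPrimitiveRoot_iff.mp h1
    have h2 : φ (A t) = ∑ d ∈ D, ζ ^ ((s' * t) * i d) := by
      simp only [hA, map_sum, map_pow, ← hs3']
      refine Finset.sum_congr rfl (fun d _ => ?_)
      rw [← pow_mul, mul_assoc]
    rw [h2]
    apply h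
    apply Nat.Coprime.mul_left _ ht
    exact Nat.Coprime.coprime_dvd_right (dvd_pow_self p (by omega)) hs2'
  have hmul : ∀ t : ℕ, t.Coprime p → AI t * AI (t * (n - 1)) = (p : 𝓞 K) ^ B := by
    intro t ht
    have hinj : Function.Injective (fun x : 𝓞 K => φ₀ (algebraMap (𝓞 K) K x)) := by
      intro x y hxy
      exact RingOfIntegers.coe_injective (φ₀.injective hxy)
    apply hinj
    simp only [map_mul, map_pow, map_natCast]
    rw [hcoe, hcoe, hφ₀A, hφ₀A]
    have h1 : ∑ d ∈ D, ζ ^ (t * (n - 1) * i d) = (starRingEnd ℂ) (∑ d ∈ D, ζ ^ (t * i d)) := by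
      rw [map_sum]
      refine Finset.sum_congr rfl (fun d _ => ?_)
      rw [← conj_pow_root hnpos hζn]
      congr 1
      ring
    rw [h1, Complex.mul_conj, Complex.normSq_eq_norm_sq, h t ht]
    push_cast
    rfl
  have hc1 : Nat.Coprime 1 p := Nat.coprime_one_left p
  have hnz : NeZero (p ^ (k + 1)) := ⟨(pow_pos hpp.pos _).ne'⟩
  -- a generator
  have hcyc := ZMod.isCyclic_units_of_prime_pow p hpp hp2 (k + 1)
  obtain ⟨g, hg⟩ := hcyc.exists_generator
  set gn : ℕ := g.val.val with hgn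
  have hgc : Nat.Coprime gn (p ^ (k + 1)) := ZMod.val_coe_unit_coprime g
  have hgp : Nat.Coprime gn p := Nat.Coprime.coprime_dvd_right (dvd_pow_self p (by omega)) hgc
  have hgz : ((gn : ℕ) : ZMod (p ^ (k + 1))) = g.val := ZMod.natCast_zmod_val _
  -- every `t` prime to `p` is a power of the generator
  have hpow : ∀ t : ℕ, t.Coprime p → ∃ j : ℕ, (t : ZMod (p ^ (k + 1))) = (gn : ZMod (p ^ (k + 1))) ^ j := by
    intro t ht
    have htc : Nat.Coprime t (p ^ (k + 1)) := Nat.Coprime.pow_right _ ht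
    have h1 := hg (ZMod.unitOfCoprime t htc)
    rw [← mem_powers_iff_mem_zpowers] at h1
    obtain ⟨j, hj⟩ := h1
    refine ⟨j, ?_⟩
    have h2 := congrArg (fun u : (ZMod (p ^ (k + 1)))ˣ => (u : ZMod (p ^ (k + 1)))) hj
    simp only [Units.val_pow_eq_pow_val, ZMod.coe_unitOfCoprime] at h2
    rw [hgz, ← h2]
  have hred : ∀ a c : ℕ, (a : ZMod (p ^ (k + 1))) = c → (a : ZMod p) = c := by
    intro a c hac
    rw [ZMod.natCast_eq_natCast_iff] at hac ⊢
    exact hac.of_dvd (dvd_pow_self p (by omega))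
  have hpowp : ∀ t j : ℕ, (t : ZMod (p ^ (k + 1))) = (gn : ZMod (p ^ (k + 1))) ^ j → (t : ZMod p) = (gn : ZMod p) ^ j := by
    intro t j htj
    have := hred t (gn ^ j) (by rw [htj]; push_cast; rfl)
    rw [this]; push_cast; rfl
  have hchar2 : ringChar (ZMod p) ≠ 2 := by rw [ZMod.ringChar_zmod_n]; exact hp2
  -- the generator is a nonsquare
  have hgns : quadraticChar (ZMod p) gn = -1 := by
    obtain ⟨a, ha⟩ := quadraticChar_exists_neg_one hchar2
    have ha0 : a ≠ 0 := by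
      rintro rfl
      rw [quadraticChar_zero] at ha
      norm_num at ha
    have hcop : Nat.Coprime a.val p := by
      rw [Nat.coprime_comm, Nat.Prime.coprime_iff_not_dvd hpp]
      intro hd
      apply ha0
      rw [← ZMod.natCast_zmod_val a]
      exact (ZMod.natCast_eq_zero_iff _ _).mpr hd
    obtain ⟨j, hj⟩ := hpow a.val hcop
    have h1 := hpowp _ _ hj
    rw [ZMod.natCast_zmod_val] at h1
    have hg0 : (gn : ZMod p) ≠ 0 := by
      intro h0
      rw [ZMod.natCast_eq_zero_iff] at h0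
      exact (Nat.Prime.coprime_iff_not_dvd hpp).mp (Nat.coprime_comm.mp hgp) h0
    rcases quadraticChar_dichotomy hg0 with h2 | h2
    · exfalso
      rw [h1, map_pow, h2, one_pow] at ha
      norm_num at ha
    · exact h2
  -- the quotient
  obtain ⟨ε, m₀, hε, hq⟩ := quot_root K hp2 hz (AI 1) _ (AI gn) _ B (hmul 1 hc1) (hmul gn hgp)
    (fun φ => by have := hφA φ 1 hc1; rwa [← hcoe] at this)
    (fun φ => by have := hφA φ gn hgp; rwa [← hcoe] at this)
  have hq' : A gn = A 1 * (ε * z ^ m₀) := by rw [← hcoe, ← hcoe]; exact hq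
  -- the twist
  obtain ⟨m, hm⟩ : ∃ m : ℕ, ((gn * m : ℕ) : ZMod (p ^ (k + 1))) = ((m + m₀ : ℕ) : ZMod (p ^ (k + 1))) := by
    have hu : IsUnit ((gn : ZMod (p ^ (k + 1))) - 1) := by
      have h1 : ¬ ((p : ℤ) ∣ (gn : ℤ) - 1) := by
        intro hd
        have h2 : ((((gn : ℤ) - 1 : ℤ)) : ZMod p) = 0 := (ZMod.intCast_zmod_eq_zero_iff_dvd ((gn : ℤ) - 1) p).mpr hd
        push_cast at h2
        rw [sub_eq_zero] at h2
        rw [h2, map_one] at hgns
        norm_num at hgns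
      have h2 : IsUnit ((((gn : ℤ) - 1 : ℤ)) : ZMod (p ^ (k + 1))) := by
        have h3 : IsCoprime (((gn : ℤ) - 1 : ℤ)) (((p ^ (k + 1) : ℕ) : ℤ)) := by
          push_cast
          apply IsCoprime.pow_right
          rw [isCoprime_comm]
          exact (Nat.prime_iff_prime_int.mp hpp).irreducible.coprime_iff_not_dvd.mpr h1
        obtain ⟨u, v, huv⟩ := h3
        have h4 := congrArg (fun x : ℤ => (x : ZMod (p ^ (k + 1)))) huv
        simp only [Int.cast_add, Int.cast_mul, Int.cast_natCast, ZMod.natCast_self, mul_zero, add_zero,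
          Int.cast_one] at h4
        exact IsUnit.of_mul_eq_one _ (by rw [mul_comm]; exact h4)
      push_cast at h2
      exact h2
    obtain ⟨u, hu'⟩ := hu
    refine ⟨(((u⁻¹ : (ZMod (p ^ (k + 1)))ˣ) : ZMod (p ^ (k + 1))) * m₀).val, ?_⟩
    push_cast
    have hv : (((((u⁻¹ : (ZMod (p ^ (k + 1)))ˣ) : ZMod (p ^ (k + 1))) * m₀).val : ℕ) : ZMod (p ^ (k + 1)))
        = ((u⁻¹ : (ZMod (p ^ (k + 1)))ˣ) : ZMod (p ^ (k + 1))) * m₀ := ZMod.natCast_zmod_val _
    rw [hv]
    have h1 : ((gn : ZMod (p ^ (k + 1))) - 1) * (((u⁻¹ : (ZMod (p ^ (k + 1)))ˣ) : ZMod (p ^ (k + 1))) * m₀) = m₀ := by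
      rw [← hu', ← mul_assoc, Units.mul_inv, one_mul]
    linear_combination h1
  have hzmod : ∀ a c : ℕ, (a : ZMod (p ^ (k + 1))) = c → z ^ a = z ^ c := by
    intro a c hac
    rw [ZMod.natCast_eq_natCast_iff] at hac
    rw [pow_eq_pow_mod a hz.pow_eq_one, pow_eq_pow_mod c hz.pow_eq_one, hac]
  -- the automorphism
  obtain ⟨σ, hσ⟩ : ∃ σ : Gal(K/ℚ), σ z = z ^ gn := by
    refine ⟨(IsCyclotomicExtension.Rat.galEquivZMod (p ^ (k + 1)) K).symm g, ?_⟩
    rw [IsCyclotomicExtension.Rat.galEquivZMod_apply_of_pow_eq (p ^ (k + 1)) K _ hz.pow_eq_one,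
      MulEquiv.apply_symm_apply]
  have hσA : ∀ t : ℕ, σ (A t) = A (gn * t) := by
    intro t
    simp only [hA, map_sum, map_pow, hσ]
    refine Finset.sum_congr rfl (fun d _ => ?_)
    rw [← pow_mul, mul_assoc]
  set α : K := A 1 * (z ^ m)⁻¹ with hα
  have hzm0 : z ^ m ≠ 0 := pow_ne_zero _ hz0
  have hA1 : A 1 = α * z ^ m := by rw [hα, mul_assoc, inv_mul_cancel₀ hzm0, mul_one]
  have hσα : σ α = ε * α := by
    have h1 : σ (A 1) = A 1 * (ε * z ^ m₀) := by rw [hσA, mul_one, hq']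
    have h2 : σ (z ^ m) = z ^ m * z ^ m₀ := by
      rw [map_pow, hσ, ← pow_mul, ← pow_add]
      exact hzmod _ _ hm
    rw [hA1, map_mul, h2] at h1
    have h3 : σ α * (z ^ m * z ^ m₀) = (ε * α) * (z ^ m * z ^ m₀) := by rw [h1]; ring
    exact mul_right_cancel₀ (mul_ne_zero hzm0 (pow_ne_zero _ hz0)) h3
  have hσε : σ ε = ε := by
    rcases hε with h1 | h1
    · rw [h1]; exact map_one σ
    · rw [h1, map_neg, map_one]
  -- powers of the automorphism
  have hσj : ∀ j : ℕ, ∀ t : ℕ, (t : ZMod (p ^ (k + 1))) = (gn : ZMod (p ^ (k + 1))) ^ j →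
      A t = ε ^ j * α * z ^ (m * t) := by
    intro j
    induction j with
    | zero =>
      intro t ht
      have h1 : A t = A 1 := by
        simp only [hA]
        apply sum_congr rfl
        intro d _
        apply hzmod
        push_cast
        rw [ht, pow_zero]
      have h2 : z ^ (m * t) = z ^ m := by
        apply hzmod
        push_cast
        rw [ht, pow_zero, mul_one]
      rw [h1, h2, hA1, pow_zero, one_mul]
    | succ j ih =>
      intro t ht
      have h1 := ih (gn ^ j) (by push_cast; rfl)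
      have h2 : A t = A (gn * gn ^ j) := by
        simp only [hA]
        apply sum_congr rfl
        intro d _
        apply hzmod
        push_cast
        rw [ht]; ring
      have h3 : z ^ (m * t) = z ^ (m * (gn * gn ^ j)) := by
        apply hzmod
        push_cast
        rw [ht]; ring
      rw [h2, ← hσA, h1, map_mul, map_mul, map_pow, map_pow, hσ, hσε, hσα, h3, ← pow_mul]
      rw [show gn * (m * gn ^ j) = m * (gn * gn ^ j) by ring]
      ring
  -- all automorphisms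
  have hallj : ∀ τ : Gal(K/ℚ), ∃ j : ℕ, τ α = ε ^ j * α := by
    intro τ
    have h1 := hg ((IsCyclotomicExtension.Rat.galEquivZMod (p ^ (k + 1)) K) τ)
    rw [← mem_powers_iff_mem_zpowers] at h1
    obtain ⟨j, hj⟩ := h1
    have h2 : τ = ((IsCyclotomicExtension.Rat.galEquivZMod (p ^ (k + 1)) K).symm g) ^ j := by
      apply (IsCyclotomicExtension.Rat.galEquivZMod (p ^ (k + 1)) K).injective
      rw [map_pow, MulEquiv.apply_symm_apply]
      exact hj.symm
    have h3 : (IsCyclotomicExtension.Rat.galEquivZMod (p ^ (k + 1)) K).symm g = σ := by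
      apply (IsCyclotomicExtension.Rat.galEquivZMod (p ^ (k + 1)) K).injective
      rw [MulEquiv.apply_symm_apply]
      have h4 := IsCyclotomicExtension.Rat.galEquivZMod_apply_of_pow_eq (p ^ (k + 1)) K σ hz.pow_eq_one
      rw [hσ] at h4
      apply Units.ext
      apply ZMod.val_injective
      exact hz.pow_inj (ZMod.val_lt _) (ZMod.val_lt _) h4
    rw [h3] at h2
    refine ⟨j, ?_⟩
    rw [h2]
    have h5 : ∀ j : ℕ, (σ ^ j) α = ε ^ j * α := by
      intro j
      induction j with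
      | zero => simp
      | succ j ih =>
        rw [pow_succ', AlgEquiv.mul_apply, ih, map_mul, map_pow, hσε, hσα]; ring
    exact h5 j
  have hall : ∀ τ : Gal(K/ℚ), τ α = α ∨ τ α = -α := by
    intro τ
    obtain ⟨j, hj⟩ := hallj τ
    rw [hj]
    rcases hε with h6 | h6
    · left; rw [h6, one_pow, one_mul]
    · rw [h6]
      rcases neg_one_pow_eq_or K j with h7 | h7
      · left; rw [h7, one_mul]
      · right; rw [h7, neg_one_mul]
  have hφα : ∀ φ : K →+* ℂ, ‖φ α‖ ^ 2 = (p : ℝ) ^ B := by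
    intro φ
    have h1 := hφA φ 1 hc1
    have h2 : ‖φ (z ^ m)‖ = 1 := by
      apply Complex.norm_eq_one_of_pow_eq_one (n := n) _ hnpos.ne'
      rw [← map_pow, ← pow_mul, mul_comm m n, pow_mul, hzn, one_pow, map_one]
    rw [hA1, map_mul, norm_mul, h2, mul_one] at h1
    exact h1
  have hgal : IsGalois ℚ K := IsCyclotomicExtension.isGalois {p ^ (k + 1)} ℚ K
  -- the square is rational
  obtain ⟨r, hr⟩ : ∃ r : ℚ, algebraMap ℚ K r = α ^ 2 := by
    have h1 : α ^ 2 ∈ Set.range (algebraMap ℚ K) := by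
      rw [IsGalois.mem_range_algebraMap_iff_fixed]
      intro τ
      rw [map_pow]
      rcases hall τ with h2 | h2
      · rw [h2]
      · rw [h2, neg_sq]
    exact h1
  have hr2 : r ^ 2 = (p : ℚ) ^ (2 * B) := by
    have h1 := hφα φ₀
    have h2 : φ₀ (algebraMap ℚ K r) = (r : ℂ) := by simp
    have h3 : ‖(r : ℂ)‖ = (p : ℝ) ^ B := by
      rw [← h2, hr, map_pow, norm_pow, h1]
    have h4 : ‖(r : ℂ)‖ = |(r : ℝ)| := by
      rw [show (r : ℂ) = ((r : ℝ) : ℂ) by push_cast; rfl, Complex.norm_real]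
      rfl
    rw [h4] at h3
    have h5 : (r : ℝ) ^ 2 = (p : ℝ) ^ (2 * B) := by
      rw [← sq_abs, h3, ← pow_mul, mul_comm]
    exact_mod_cast h5
  -- the sign is `-1`
  have hεm : ε = -1 := by
    rcases hε with h1 | h1
    · exfalso
      have h2 : ∀ τ : Gal(K/ℚ), τ α = α := by
        intro τ
        obtain ⟨j, hj⟩ := hallj τ
        rw [hj, h1, one_pow, one_mul]
      have h3 : α ∈ Set.range (algebraMap ℚ K) := by
        rw [IsGalois.mem_range_algebraMap_iff_fixed]; exact h2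
      obtain ⟨w, hw⟩ := h3
      have h4 : w ^ 2 = r := by
        apply (algebraMap ℚ K).injective
        rw [map_pow, hw, hr]
      -- the absolute value
      have h5 := hφα φ₀
      have h6 : φ₀ (algebraMap ℚ K w) = (w : ℂ) := by simp
      rw [← hw, h6] at h5
      have h7 : ‖(w : ℂ)‖ = |(w : ℝ)| := by
        rw [show (w : ℂ) = ((w : ℝ) : ℂ) by push_cast; rfl, Complex.norm_real]
        rfl
      rw [h7, sq_abs] at h5
      exact no_sqrt (p := p) w B hB (by exact_mod_cast h5)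
    · exact h1
  refine ⟨m, φ₀ α, ?_, ?_⟩
  · have h1 : α ^ 4 = algebraMap ℚ K (r ^ 2) := by rw [map_pow, hr]; ring
    rw [← map_pow, h1, hr2]
    simp
  · intro t ht
    obtain ⟨j, hj⟩ := hpow t ht
    have h1 := hσj j t hj
    have h2 : (quadraticChar (ZMod p) t : ℤ) = (-1) ^ j := by
      rw [hpowp t j hj, map_pow, hgns]
    rw [← hφ₀A, h1, hεm, h2, map_mul, map_mul, map_pow, map_pow, hφz, map_neg, map_one]
    push_cast
    ring

end Pool.Agent.H45.R4
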