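import Mathlib
import Pool.Agent.H56.RDSMain
import Pool.Agent.H45.R4.Key
import Pool.Agent.H45.R4.Coef

set_option autoImplicit false

open Finset

namespace Pool.Agent.H45.R4

open Pool.Agent.H56.RDS

/-- the situation of the sign argument -/
structure Setup (p k b : ℕ) [Fact p.Prime] (G : Type) [AddCommGroup G] [Fintype G] [DecidableEq G]
    (N U P : AddSubgroup G) (D : Finset G) (π : G →+ ZMod p) : Prop where
  p5 : 5 ≤ p
  k1 : 1 ≤ k
  hb : Odd b
  cardG : Fintype.card G = p ^ (2 * b)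
  cardN : Nat.card N = p ^ b
  cardD : D.card = p ^ b
  rep1 : ∀ g : G, g ∉ N → ((D ×ˢ D).filter (fun x => x.1 - x.2 = g)).card = 1
  rep0 : ∀ g : G, g ∈ N → g ≠ 0 → ((D ×ˢ D).filter (fun x => x.1 - x.2 = g)).card = 0
  expo : ∀ g : G, p ^ (k + 1) • g = 0
  memP : ∀ g : G, p ^ k • g ∈ P
  surP : ∀ a ∈ P, ∃ g : G, p ^ k • g = a
  cardP : Nat.card P = p ^ 2
  cardU : Nat.card U = p
  leU : U ≤ P
  hπ : ∀ g : G, π g = 0 ↔ p ^ k • g ∈ U
  sπ : Function.Surjective π

section
variable {p : ℕ} [hp : Fact p.Prime] {G : Type} [AddCommGroup G] [Fintype G] [DecidableEq G]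

/-- character sums of the parts -/
noncomputable def S (D : Finset G) (π : G →+ ZMod p) (χ : AddChar G ℂ) (x : ZMod p) : ℂ :=
  cs χ (D.filter fun d => π d = x)

/-- the product sums -/
noncomputable def T (D : Finset G) (π : G →+ ZMod p) (c : Fin 4 → ℕ) (χ : AddChar G ℂ) : ℂ :=
  ∑ x, ∏ i, S D π (χ ^ c i) x

/-- complex version of the description of the conjugates -/
theorem key3 {k : ℕ} (hp2 : p ≠ 2) {ι : Type} (D : Finset ι) (i : ι → ℕ) (B : ℕ) (hB : Odd B) (ζ : ℂ)
    (hζ : IsPrimitiveRoot ζ (p ^ (k + 1)))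
    (h : ∀ t : ℕ, t.Coprime p → ‖∑ d ∈ D, ζ ^ (t * i d)‖ ^ 2 = (p : ℝ) ^ B) :
    ∃ (m : ℕ) (α : ℂ), α ^ 4 = (p : ℂ) ^ (2 * B) ∧
      ∀ t : ℕ, t.Coprime p → ∑ d ∈ D, ζ ^ (t * i d) = (quadraticChar (ZMod p) t : ℤ) * ζ ^ (m * t) * α := by
  have hne : NeZero (p ^ (k + 1)) := ⟨(pow_pos hp.out.pos _).ne'⟩
  have h1 : @IsCyclotomicExtension {p ^ (k + 1)} ℚ (CyclotomicField (p ^ (k + 1)) ℚ) _ _
      (CyclotomicField.algebra _ _) := inferInstance
  have h2 : (CyclotomicField.algebra (p ^ (k + 1)) ℚ :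
      Algebra ℚ (CyclotomicField (p ^ (k + 1)) ℚ)) = DivisionRing.toRatAlgebra :=
    Subsingleton.elim _ _
  rw [h2] at h1
  exact key3K (CyclotomicField (p ^ (k + 1)) ℚ) hp2 D i B hB ζ hζ h

variable {k b : ℕ} {N U P : AddSubgroup G} {D : Finset G} {π : G →+ ZMod p}

/-- the exact value of the product sum for the main characters -/
theorem T_main (hS : Setup p k b G N U P D π) (c : Fin 4 → ℕ) (hc : ∀ i, (c i).Coprime p)
    (hsum : ∑ i, c i = p ^ (k + 1)) (hprod : ∏ i, quadraticChar (ZMod p) (c i) = -1)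
    (χ : AddChar G ℂ) (hU : ∀ x ∈ U, χ x = 1) (hP : ∃ x ∈ P, χ x ≠ 1) (hN : ∃ x ∈ N, χ x ≠ 1) :
    T D π c χ = -(p : ℂ) ^ (2 * b) := by
  classical
  have hpp := hp.out
  have hp2 : p ≠ 2 := by have := hS.p5; omega
  have hq0 : p ^ (k + 1) ≠ 0 := pow_ne_zero _ hpp.ne_zero
  have hnz : NeZero (p ^ (k + 1)) := ⟨hq0⟩
  obtain ⟨ζ, hζ⟩ : ∃ ζ : ℂ, IsPrimitiveRoot ζ (p ^ (k + 1)) :=
    ⟨_, Complex.isPrimitiveRoot_exp _ hq0⟩
  have hval : ∀ g : G, ∃ i : ℕ, ζ ^ i = χ g := by
    intro g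
    have h3 : χ g ^ (p ^ (k + 1)) = 1 := by
      rw [← AddChar.map_nsmul_eq_pow, hS.expo, AddChar.map_zero_eq_one]
    obtain ⟨i, _, hi⟩ := hζ.eq_pow_of_pow_eq_one h3
    exact ⟨i, hi⟩
  choose i hi using hval
  have hsumt : ∀ t : ℕ, ∑ d ∈ D, ζ ^ (t * i d) = cs (χ ^ t) D := by
    intro t
    unfold cs
    refine Finset.sum_congr rfl (fun d _ => ?_)
    rw [AddChar.pow_apply, ← hi d, ← pow_mul, mul_comm]
  obtain ⟨m, α, hα, hkey⟩ := key3 (k := k) hp2 D i b hS.hb ζ hζ (by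
    intro t ht
    rw [hsumt, norm_sq_of_nontrivial N D hS.rep1 hS.rep0 (χ ^ t) ?_, hS.cardD]
    · push_cast; rfl
    · obtain ⟨x, hx, hx'⟩ := hN
      refine ⟨x, hx, fun h3 => hx' ?_⟩
      rw [AddChar.pow_apply] at h3
      have h4 : χ x ^ (p ^ (k + 1)) = 1 := by
        rw [← AddChar.map_nsmul_eq_pow, hS.expo, AddChar.map_zero_eq_one]
      have h5 : orderOf (χ x) ∣ Nat.gcd t (p ^ (k + 1)) :=
        Nat.dvd_gcd (orderOf_dvd_of_pow_eq_one h3) (orderOf_dvd_of_pow_eq_one h4)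
      rw [Nat.Coprime.pow_right _ ht] at h5
      exact orderOf_eq_one_iff.mp (Nat.dvd_one.mp h5))
  -- the value on multiples of `p ^ k`
  obtain ⟨g1, hg1⟩ := hS.sπ 1
  set v : ℂ := χ (p ^ k • g1) with hv
  have hvq : ∀ g : G, χ (p ^ k • g) = v ^ (π g).val := by
    intro g
    have h1 : π (g - (π g).val • g1) = 0 := by
      rw [map_sub, map_nsmul, hg1, nsmul_eq_mul, mul_one, ZMod.natCast_zmod_val, sub_self]
    have h2 := hU _ ((hS.hπ _).mp h1)
    rw [nsmul_sub, AddChar.map_sub_eq_div, nsmul_left_comm, AddChar.map_nsmul_eq_pow χ (π g).val, ← hv] at h2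
    have hv0 : v ^ (π g).val ≠ 0 := by
      intro h0
      rw [h0, div_zero] at h2
      exact zero_ne_one h2
    exact (div_eq_one_iff_eq hv0).mp h2
  have hvp : v ^ p = 1 := by
    rw [hv, ← AddChar.map_nsmul_eq_pow, ← mul_nsmul', ← pow_succ', hS.expo, AddChar.map_zero_eq_one]
  have hvx : ∀ n : ℕ, (v ^ n) ^ p = 1 := by
    intro n
    rw [← pow_mul, mul_comm, pow_mul, hvp, one_pow]
  have hv1 : v ≠ 1 := by
    intro h1
    obtain ⟨x, hx, hx'⟩ := hP
    obtain ⟨g, rfl⟩ := hS.surP x hx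
    exact hx' (by rw [hvq, h1, one_pow])
  have hv0 : v ≠ 0 := by
    intro h0
    rw [h0, zero_pow hpp.ne_zero] at hvp
    exact zero_ne_one hvp
  have hvprim : IsPrimitiveRoot v p := by
    have : orderOf v = p := orderOf_eq_prime hvp hv1
    rw [← this]; exact IsPrimitiveRoot.orderOf v
  set w : ℂ := ζ ^ (m * p ^ k) with hw
  have hwp : w ^ p = 1 := by
    rw [hw, ← pow_mul, mul_assoc, ← pow_succ, mul_comm, pow_mul, hζ.pow_eq_one, one_pow]
  have hnzp : NeZero p := ⟨hpp.ne_zero⟩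
  obtain ⟨x0, hx0, hx0'⟩ := hvprim.eq_pow_of_pow_eq_one hwp
  have hpc : (p : ℂ) ≠ 0 := by exact_mod_cast hpp.ne_zero
  -- the parts
  have hpart : ∀ t : ℕ, t.Coprime p → ∀ x : ZMod p,
      S D π (χ ^ t) x = if x = (x0 : ZMod p) then (quadraticChar (ZMod p) t : ℤ) * ζ ^ (m * t) * α else 0 := by
    intro t ht x
    have hu : ∀ g : G, ∑ j ∈ range p, ((v ^ x.val)⁻¹ ^ t * (χ (p ^ k • g)) ^ t) ^ j
        = if π g = x then (p : ℂ) else 0 := by
      intro g
      rw [sum_roots]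
      · congr 1
        apply propext
        rw [hvq, ← mul_pow]
        constructor
        · intro h1
          -- the element has order dividing `t` and `p`
          have h2 : ((v ^ x.val)⁻¹ * v ^ (π g).val) ^ p = 1 := by
            rw [mul_pow, inv_pow, hvx, hvx, inv_one, mul_one]
          have h3 : orderOf ((v ^ x.val)⁻¹ * v ^ (π g).val) ∣ Nat.gcd t p :=
            Nat.dvd_gcd (orderOf_dvd_of_pow_eq_one h1) (orderOf_dvd_of_pow_eq_one h2)
          rw [ht] at h3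
          have h4 := orderOf_eq_one_iff.mp (Nat.dvd_one.mp h3)
          have h5 : v ^ (π g).val = v ^ x.val := by
            have h6 : v ^ x.val ≠ 0 := pow_ne_zero _ hv0
            field_simp at h4
            exact h4
          exact ZMod.val_injective p (hvprim.pow_inj (ZMod.val_lt _) (ZMod.val_lt _) h5)
        · intro h1
          rw [h1, inv_mul_cancel₀ (pow_ne_zero _ hv0), one_pow]
      · rw [hvq, ← mul_pow, ← pow_mul, mul_comm t p, pow_mul, mul_pow, inv_pow, hvx, hvx, inv_one, one_mul, one_pow]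
    have hL : (p : ℂ) * S D π (χ ^ t) x
        = ∑ j ∈ range p, (v ^ x.val)⁻¹ ^ (t * j) * cs (χ ^ (t * (1 + j * p ^ k))) D := by
      unfold S cs
      have e1 : ∀ j ∈ range p, (v ^ x.val)⁻¹ ^ (t * j) * ∑ d ∈ D, (χ ^ (t * (1 + j * p ^ k))) d
          = ∑ d ∈ D, (χ d) ^ t * ((v ^ x.val)⁻¹ ^ t * (χ (p ^ k • d)) ^ t) ^ j := by
        intro j _
        rw [mul_sum]
        refine sum_congr rfl (fun d _ => ?_)
        rw [AddChar.pow_apply, AddChar.map_nsmul_eq_pow]
        have : χ d ^ (t * (1 + j * p ^ k)) = χ d ^ t * ((χ d ^ p ^ k) ^ t) ^ j := by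
          rw [← pow_mul, ← pow_mul, ← pow_add]; congr 1; ring
        rw [this, mul_pow, ← pow_mul]; ring
      rw [sum_congr rfl e1, sum_comm, mul_sum, sum_filter]
      refine sum_congr rfl (fun d _ => ?_)
      rw [← mul_sum, hu d]
      by_cases h1 : π d = x
      · rw [if_pos h1, if_pos h1, AddChar.pow_apply]; ring
      · rw [if_neg h1, if_neg h1, mul_zero]
    have hR : ∑ j ∈ range p, (v ^ x.val)⁻¹ ^ (t * j) * cs (χ ^ (t * (1 + j * p ^ k))) D
        = (quadraticChar (ZMod p) t : ℤ) * ζ ^ (m * t) * α * (if x = (x0 : ZMod p) then (p : ℂ) else 0) := by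
      have e1 : ∀ j ∈ range p, (v ^ x.val)⁻¹ ^ (t * j) * cs (χ ^ (t * (1 + j * p ^ k))) D
          = (quadraticChar (ZMod p) t : ℤ) * ζ ^ (m * t) * α * (((v ^ x.val)⁻¹ * w) ^ t) ^ j := by
        intro j _
        have hcop : Nat.Coprime (t * (1 + j * p ^ k)) p := by
          apply Nat.Coprime.mul_left ht
          have hk1 := hS.k1
          have : Nat.Coprime (1 + p * (j * p ^ (k - 1))) p := by simp
          have h2 : p * (j * p ^ (k - 1)) = j * p ^ k := by
            have : p ^ k = p * p ^ (k - 1) := by rw [← pow_succ', Nat.sub_add_cancel hk1]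
            rw [this]; ring
          rwa [h2] at this
        rw [← hsumt, hkey _ hcop]
        have h3 : (((t * (1 + j * p ^ k) : ℕ)) : ZMod p) = (t : ZMod p) := by
          push_cast
          have hk1 := hS.k1
          have : (p : ZMod p) ^ k = 0 := by rw [ZMod.natCast_self, zero_pow (by omega)]
          rw [this]; ring
        rw [h3]
        have h4 : ζ ^ (m * (t * (1 + j * p ^ k))) = ζ ^ (m * t) * (w ^ t) ^ j := by
          rw [hw, ← pow_mul, ← pow_mul, ← pow_add]; congr 1; ring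
        rw [h4]
        rw [pow_mul, mul_pow ((v ^ x.val)⁻¹) w t, mul_pow (((v ^ x.val)⁻¹) ^ t) (w ^ t) j]
        ring
      rw [sum_congr rfl e1, ← mul_sum, sum_roots]
      · congr 2
        apply propext
        constructor
        · intro h1
          have h2 : ((v ^ x.val)⁻¹ * w) ^ p = 1 := by
            rw [mul_pow, hwp, mul_one, inv_pow, hvx, inv_one]
          have h3 : orderOf ((v ^ x.val)⁻¹ * w) ∣ Nat.gcd t p :=
            Nat.dvd_gcd (orderOf_dvd_of_pow_eq_one h1) (orderOf_dvd_of_pow_eq_one h2)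
          rw [ht] at h3
          have h4 := orderOf_eq_one_iff.mp (Nat.dvd_one.mp h3)
          have h5 : w = v ^ x.val := by
            have h6 : v ^ x.val ≠ 0 := pow_ne_zero _ hv0
            rw [inv_mul_eq_one₀ h6] at h4
            exact h4.symm
          rw [← hx0'] at h5
          have h6 := hvprim.pow_inj hx0 (ZMod.val_lt _) h5
          rw [h6, ZMod.natCast_zmod_val]
        · intro h1
          have h2 : x.val = x0 := by rw [h1]; exact ZMod.val_cast_of_lt hx0
          rw [h2, hx0', inv_mul_cancel₀, one_pow]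
          rw [← hx0']; exact pow_ne_zero _ hv0
      · rw [← pow_mul, mul_comm t p, pow_mul, mul_pow, hwp, mul_one, inv_pow, hvx, inv_one, one_pow]
    rw [hR] at hL
    by_cases h1 : x = (x0 : ZMod p)
    · rw [if_pos h1] at hL ⊢
      apply mul_left_cancel₀ hpc
      rw [hL]; ring
    · rw [if_neg h1, mul_zero] at hL
      rw [if_neg h1]
      exact (mul_eq_zero.mp hL).resolve_left hpc
  unfold T
  rw [sum_eq_single (x0 : ZMod p)]
  · have h1 : ∀ i ∈ (univ : Finset (Fin 4)), S D π (χ ^ c i) (x0 : ZMod p)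
        = (quadraticChar (ZMod p) (c i) : ℤ) * ζ ^ (m * c i) * α := by
      intro i _
      rw [hpart (c i) (hc i), if_pos rfl]
    rw [prod_congr rfl h1, prod_mul_distrib, prod_mul_distrib, prod_const, card_univ, Fintype.card_fin, hα,
      prod_pow_eq_pow_sum, ← mul_sum, hsum]
    have h2 : ∏ i, ((quadraticChar (ZMod p) (c i) : ℤ) : ℂ) = -1 := by
      rw [← Int.cast_prod, hprod]; simp
    rw [h2, mul_comm m, pow_mul, hζ.pow_eq_one, one_pow]
    ring
  · intro x _ hx
    apply prod_eq_zero (mem_univ (0 : Fin 4))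
    rw [hpart (c 0) (hc 0), if_neg hx]
  · intro h; exact absurd (mem_univ _) h

end

end Pool.Agent.H45.R4
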