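import Mathlib
import Pool.Agent.H45.R4.SignA

set_option autoImplicit false

open Finset

namespace Pool.Agent.H45.R4

open Pool.Agent.H56.RDS

section
variable {p : ℕ} [hp : Fact p.Prime] {G : Type} [AddCommGroup G] [Fintype G] [DecidableEq G]
set_option linter.unusedSectionVars false

variable {k b : ℕ} {N U P : AddSubgroup G} {D : Finset G} {π : G →+ ZMod p}

/-- pulled back characters -/
noncomputable def lam (π : G →+ ZMod p) (ψ : AddChar (ZMod p) ℂ) : AddChar G ℂ := ψ.compAddMonoidHom π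

lemma lam_apply (ψ : AddChar (ZMod p) ℂ) (g : G) : lam π ψ g = ψ (π g) := rfl

lemma lam_mul (ψ ψ' : AddChar (ZMod p) ℂ) : lam π ψ * lam π ψ' = lam π (ψ * ψ') := by
  ext g; rfl

lemma lam_pow (ψ : AddChar (ZMod p) ℂ) (n : ℕ) : (lam π ψ) ^ n = lam π (ψ ^ n) := by
  ext g; rfl

/-- Parseval on the parts -/
lemma parseval_parts (D : Finset G) (π : G →+ ZMod p) (χ : AddChar G ℂ) :
    (p : ℝ) * ∑ x, ‖S D π χ x‖ ^ 2 = ∑ ψ : AddChar (ZMod p) ℂ, ‖cs (χ * lam π ψ) D‖ ^ 2 := by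
  classical
  have h1 := parseval (G := ZMod p) (S D π χ)
  rw [ZMod.card] at h1
  rw [← h1]
  apply sum_congr rfl
  intro ψ _
  congr 2
  unfold S cs
  rw [← sum_fiberwise D (fun d => π d)]
  apply sum_congr rfl
  intro x _
  rw [sum_mul]
  apply sum_congr rfl
  intro d hd
  rw [AddChar.mul_apply, lam_apply, (mem_filter.mp hd).2]

/-- all nontrivial characters have small sums -/
lemma norm_cs_le (hS : Setup p k b G N U P D π) (χ : AddChar G ℂ) (h : χ ≠ 1) : ‖cs χ D‖ ^ 2 ≤ (p : ℝ) ^ b := by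
  by_cases h1 : ∃ x ∈ N, χ x ≠ 1
  · rw [norm_sq_of_nontrivial N D hS.rep1 hS.rep0 χ h1, hS.cardD]
    push_cast; rfl
  · push Not at h1
    rw [norm_sq_of_trivial N D hS.rep1 hS.rep0 χ h1 (AddChar.ne_one_iff.mp h) (by rw [hS.cardN, hS.cardD])]
    rw [norm_zero, zero_pow two_ne_zero]
    positivity

/-- the fourth power sum -/
noncomputable def M (D : Finset G) (π : G →+ ZMod p) (χ : AddChar G ℂ) : ℝ := ∑ x, ‖S D π χ x‖ ^ 4

/-- fourth power sum of the sizes -/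
noncomputable def M0 (D : Finset G) (π : G →+ ZMod p) : ℝ := ∑ x : ZMod p, ((D.filter fun d => π d = x).card : ℝ) ^ 4

lemma M_le (hS : Setup p k b G N U P D π) (χ : AddChar G ℂ) (h : ∀ ψ, χ ≠ lam π ψ) :
    M D π χ ≤ (p : ℝ) ^ (2 * b) := by
  have hpp := hp.out
  have hp0 : (0 : ℝ) < p := by exact_mod_cast hpp.pos
  have h1 := parseval_parts D π χ
  have h2 : ∑ ψ : AddChar (ZMod p) ℂ, ‖cs (χ * lam π ψ) D‖ ^ 2 ≤ ∑ ψ : AddChar (ZMod p) ℂ, (p : ℝ) ^ b := by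
    apply sum_le_sum
    intro ψ _
    apply norm_cs_le hS
    intro h3
    apply h ψ⁻¹
    rw [mul_eq_one_iff_eq_inv] at h3
    rw [h3]
    ext g
    rw [AddChar.inv_apply, lam_apply, lam_apply, AddChar.inv_apply, map_neg]
  rw [sum_const, card_univ, AddChar.card_eq, ZMod.card, nsmul_eq_mul, ← h1] at h2
  have h3 : ∑ x, ‖S D π χ x‖ ^ 2 ≤ (p : ℝ) ^ b := le_of_mul_le_mul_left h2 hp0
  have h4 : M D π χ ≤ (∑ x, ‖S D π χ x‖ ^ 2) ^ 2 := by
    unfold M
    have h5 : ∀ x ∈ (univ : Finset (ZMod p)), ‖S D π χ x‖ ^ 4 ≤ ‖S D π χ x‖ ^ 2 * ∑ y, ‖S D π χ y‖ ^ 2 := by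
      intro x hx
      have h6 : ‖S D π χ x‖ ^ 2 ≤ ∑ y, ‖S D π χ y‖ ^ 2 :=
        single_le_sum (f := fun y => ‖S D π χ y‖ ^ 2) (fun _ _ => by positivity) hx
      calc ‖S D π χ x‖ ^ 4 = ‖S D π χ x‖ ^ 2 * ‖S D π χ x‖ ^ 2 := by ring
        _ ≤ _ := mul_le_mul_of_nonneg_left h6 (by positivity)
    refine (sum_le_sum h5).trans ?_
    rw [← sum_mul, sq]
  refine h4.trans ?_
  rw [mul_comm 2 b, pow_mul]
  exact pow_le_pow_left₀ (sum_nonneg fun _ _ => by positivity) h3 2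

lemma M_lam (ψ : AddChar (ZMod p) ℂ) : M D π (lam π ψ) = M0 D π := by
  unfold M M0
  apply sum_congr rfl
  intro x _
  have h1 : S D π (lam π ψ) x = ψ x * (D.filter fun d => π d = x).card := by
    unfold S cs
    rw [sum_congr rfl (g := fun _ => ψ x) (fun d hd => by rw [lam_apply, (mem_filter.mp hd).2]), sum_const,
      nsmul_eq_mul, mul_comm]
  rw [h1, norm_mul, AddChar.norm_apply, one_mul, Complex.norm_natCast]

/-- the bound for the fourth power sum of the sizes -/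
lemma M0_le (hS : Setup p k b G N U P D π) :
    (p : ℝ) * M0 D π * p ^ 2 ≤ (p : ℝ) ^ (4 * b) + 8 * p ^ (3 * b) * p + 3 * p ^ (2 * b) * p ^ 3 := by
  classical
  have hpp := hp.out
  have hp0 : (0 : ℝ) < p := by exact_mod_cast hpp.pos
  have hp1 : (1 : ℝ) ≤ p := by exact_mod_cast hpp.one_le
  have hb1 : 1 ≤ b := hS.hb.pos
  set n : ℝ := (p : ℝ) ^ b with hn
  have hn0 : 0 < n := pow_pos hp0 _
  set s : ZMod p → ℝ := fun x => ((D.filter fun d => π d = x).card : ℝ) with hs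
  -- second moment
  have h1 := parseval_parts D π 1
  have h2 : ∑ ψ : AddChar (ZMod p) ℂ, ‖cs (1 * lam π ψ) D‖ ^ 2 ≤ n ^ 2 + p * n := by
    rw [← sum_erase_add _ _ (mem_univ (1 : AddChar (ZMod p) ℂ))]
    have h3 : ‖cs (1 * lam π (1 : AddChar (ZMod p) ℂ)) D‖ ^ 2 = n ^ 2 := by
      have : (1 * lam π (1 : AddChar (ZMod p) ℂ) : AddChar G ℂ) = 1 := by ext g; simp [lam_apply]
      rw [this]
      unfold cs
      simp only [AddChar.one_apply, sum_const, nsmul_eq_mul, mul_one, Complex.norm_natCast]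
      rw [hS.cardD, hn]; push_cast; rfl
    have h4 : ∑ ψ ∈ univ.erase (1 : AddChar (ZMod p) ℂ), ‖cs (1 * lam π ψ) D‖ ^ 2 ≤ p * n := by
      have h5 : ∀ ψ ∈ univ.erase (1 : AddChar (ZMod p) ℂ), ‖cs (1 * lam π ψ) D‖ ^ 2 ≤ n := by
        intro ψ hψ
        apply norm_cs_le hS
        intro h6
        apply (mem_erase.mp hψ).1
        rw [one_mul] at h6
        ext x
        obtain ⟨g, rfl⟩ := hS.sπ x
        have := congrArg (fun χ : AddChar G ℂ => χ g) h6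
        simpa [lam_apply] using this
      refine (sum_le_sum h5).trans ?_
      rw [sum_const, nsmul_eq_mul]
      apply mul_le_mul_of_nonneg_right _ hn0.le
      have h6 : (univ.erase (1 : AddChar (ZMod p) ℂ)).card ≤ p := by
        refine (card_erase_le).trans ?_
        rw [card_univ, AddChar.card_eq, ZMod.card]
      exact_mod_cast h6
    rw [h3]; linarith
  rw [← h1] at h2
  have h3 : ∀ x, ‖S D π (1 : AddChar G ℂ) x‖ = s x := by
    intro x
    unfold S cs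
    simp only [AddChar.one_apply, sum_const, nsmul_eq_mul, mul_one, Complex.norm_natCast]
    rfl
  simp only [h3] at h2
  have h4 : ∑ x, s x = n := by
    rw [hs]
    have : ∑ x : ZMod p, (D.filter fun d => π d = x).card = D.card := by
      rw [← card_eq_sum_card_fiberwise (fun x _ => mem_univ _)]
    have h5 : ((∑ x : ZMod p, (D.filter fun d => π d = x).card : ℕ) : ℝ) = ((D.card : ℕ) : ℝ) := by rw [this]
    push_cast at h5
    rw [h5, hS.cardD, hn]; push_cast; rfl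
  -- deviations
  set m : ℝ := n / p with hm
  have hmp : p * m = n := by rw [hm]; field_simp
  have hcard : ∑ x : ZMod p, (1 : ℝ) = p := by simp [ZMod.card]
  set δ : ZMod p → ℝ := fun x => s x - m with hδ
  have hδ1 : ∑ x, δ x = 0 := by
    rw [hδ, sum_sub_distrib, h4, sum_const, card_univ, ZMod.card, nsmul_eq_mul, hmp, sub_self]
  have hδ2 : p * ∑ x, δ x ^ 2 ≤ p * n := by
    have h5 : ∀ x, s x ^ 2 = δ x ^ 2 + 2 * m * δ x + m ^ 2 := by
      intro x; simp only [hδ]; ring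
    have h6 : ∑ x, s x ^ 2 = ∑ x, δ x ^ 2 + p * m ^ 2 := by
      rw [sum_congr rfl (fun x _ => h5 x), sum_add_distrib, sum_add_distrib, ← mul_sum, hδ1, sum_const, card_univ,
        ZMod.card, nsmul_eq_mul]
      ring
    rw [h6, mul_add] at h2
    have h7 : p * (p * m ^ 2) = n ^ 2 := by rw [← hmp]; ring
    rw [h7] at h2
    linarith
  have hδ3 : ∑ x, δ x ^ 2 ≤ n := le_of_mul_le_mul_left hδ2 hp0
  have hδ4 : ∑ x, δ x ^ 4 ≤ n ^ 2 := by
    have h5 : ∀ x ∈ (univ : Finset (ZMod p)), δ x ^ 4 ≤ δ x ^ 2 * ∑ y, δ y ^ 2 := by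
      intro x hx
      have h6 : δ x ^ 2 ≤ ∑ y, δ y ^ 2 :=
        single_le_sum (f := fun y => δ y ^ 2) (fun _ _ => by positivity) hx
      calc δ x ^ 4 = δ x ^ 2 * δ x ^ 2 := by ring
        _ ≤ _ := mul_le_mul_of_nonneg_left h6 (by positivity)
    refine (sum_le_sum h5).trans ?_
    rw [← sum_mul, sq]
    exact mul_le_mul hδ3 hδ3 (sum_nonneg fun _ _ => by positivity) hn0.le
  have hm0 : 0 ≤ m := by rw [hm]; positivity
  have h5 : M0 D π ≤ p * m ^ 4 + 8 * m ^ 2 * n + 3 * n ^ 2 := by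
    have h6 : ∀ x ∈ (univ : Finset (ZMod p)), s x ^ 4 ≤ m ^ 4 + 4 * m ^ 3 * δ x + 8 * m ^ 2 * δ x ^ 2 + 3 * δ x ^ 4 := by
      intro x _
      have : s x = m + δ x := by simp only [hδ]; ring
      rw [this]
      nlinarith [sq_nonneg (m * δ x - δ x ^ 2)]
    have h7 : M0 D π ≤ ∑ x : ZMod p, (m ^ 4 + 4 * m ^ 3 * δ x + 8 * m ^ 2 * δ x ^ 2 + 3 * δ x ^ 4) := sum_le_sum h6
    refine h7.trans ?_
    rw [sum_add_distrib, sum_add_distrib, sum_add_distrib, ← mul_sum, ← mul_sum, ← mul_sum, hδ1, sum_const, card_univ,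
      ZMod.card, nsmul_eq_mul]
    have h8 : 8 * m ^ 2 * ∑ x, δ x ^ 2 ≤ 8 * m ^ 2 * n := mul_le_mul_of_nonneg_left hδ3 (by positivity)
    linarith
  have h6 : (p : ℝ) ^ (4 * b) = n ^ 4 := by rw [hn, ← pow_mul, mul_comm]
  have h7 : (p : ℝ) ^ (3 * b) = n ^ 3 := by rw [hn, ← pow_mul, mul_comm]
  have h8 : (p : ℝ) ^ (2 * b) = n ^ 2 := by rw [hn, ← pow_mul, mul_comm]
  rw [h6, h7, h8]
  calc (p : ℝ) * M0 D π * p ^ 2 ≤ p * (p * m ^ 4 + 8 * m ^ 2 * n + 3 * n ^ 2) * p ^ 2 := by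
        apply mul_le_mul_of_nonneg_right _ (by positivity)
        exact mul_le_mul_of_nonneg_left h5 hp0.le
    _ = (p * m) ^ 4 + 8 * (p * m) ^ 2 * n * p + 3 * n ^ 2 * p ^ 3 := by ring
    _ = _ := by rw [hmp]; ring

/-- geometric mean bound for the product sums -/
lemma norm_T_le (c : Fin 4 → ℕ) (χ : AddChar G ℂ) : ‖T D π c χ‖ ≤ (∑ i, M D π (χ ^ c i)) / 4 := by
  unfold T M
  refine (norm_sum_le _ _).trans ?_
  rw [sum_comm, sum_div]
  apply sum_le_sum
  intro x _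
  rw [norm_prod, Fin.prod_univ_four, Fin.sum_univ_four]
  set a := ‖S D π (χ ^ c 0) x‖
  set b' := ‖S D π (χ ^ c 1) x‖
  set c' := ‖S D π (χ ^ c 2) x‖
  set d := ‖S D π (χ ^ c 3) x‖
  nlinarith [sq_nonneg (a * b' - c' * d), sq_nonneg (a ^ 2 - b' ^ 2), sq_nonneg (c' ^ 2 - d ^ 2)]

lemma T_le_lam (c : Fin 4 → ℕ) (ψ : AddChar (ZMod p) ℂ) : ‖T D π c (lam π ψ)‖ ≤ M0 D π := by
  refine (norm_T_le c _).trans ?_
  rw [sum_congr rfl (g := fun _ => M0 D π) (fun i _ => by rw [lam_pow, M_lam])]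
  rw [sum_const, card_univ, Fintype.card_fin, nsmul_eq_mul]
  push_cast
  linarith

lemma T_le (hS : Setup p k b G N U P D π) (c : Fin 4 → ℕ) (hc : ∀ i, (c i).Coprime p) (χ : AddChar G ℂ)
    (h : ∀ ψ, χ ≠ lam π ψ) : ‖T D π c χ‖ ≤ (p : ℝ) ^ (2 * b) := by
  refine (norm_T_le c _).trans ?_
  have h1 : ∀ i ∈ (univ : Finset (Fin 4)), M D π (χ ^ c i) ≤ (p : ℝ) ^ (2 * b) := by
    intro i _
    apply M_le hS
    intro ψ h2
    -- invert the exponent
    have h3 : Nat.Coprime (c i) (p ^ (k + 1)) := Nat.Coprime.pow_right _ (hc i)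
    have hlt : 1 < p ^ (k + 1) := Nat.one_lt_pow (by omega) hp.out.one_lt
    obtain ⟨e, he⟩ := Nat.exists_mul_mod_eq_one_of_coprime h3 hlt
    apply h (ψ ^ e)
    rw [← lam_pow, ← h2, ← pow_mul]
    have h4 : ∀ g, χ g ^ (p ^ (k + 1)) = 1 := by
      intro g
      rw [← AddChar.map_nsmul_eq_pow, hS.expo, AddChar.map_zero_eq_one]
    ext g
    rw [AddChar.pow_apply, pow_eq_pow_mod _ (h4 g), he.2, pow_one]
  have h2 := sum_le_sum h1
  rw [sum_const, card_univ, Fintype.card_fin, nsmul_eq_mul] at h2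
  push_cast at h2
  linarith

/-- positivity -/
lemma pos (TU : Finset (AddChar G ℂ)) (hTU : ∀ χ, χ ∈ TU ↔ ∀ x ∈ U, χ x = 1) (c : Fin 4 → ℕ) :
    0 ≤ (∑ χ ∈ TU, T D π c χ).re := by
  classical
  have h0 : ∀ w : G, 0 ≤ (∑ χ ∈ TU, χ w).re := by
    intro w
    by_cases h1 : ∃ χ₀ ∈ TU, χ₀ w ≠ 1
    · obtain ⟨χ₀, h2, h3⟩ := h1
      have h4 : χ₀ w * ∑ χ ∈ TU, χ w = ∑ χ ∈ TU, χ w := by
        rw [mul_sum]
        refine sum_nbij' (fun χ => χ₀ * χ) (fun χ => χ₀⁻¹ * χ) ?_ ?_ ?_ ?_ ?_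
        · intro χ hχ
          rw [hTU] at hχ h2 ⊢
          intro x hx
          rw [AddChar.mul_apply, h2 x hx, hχ x hx, one_mul]
        · intro χ hχ
          rw [hTU] at hχ h2 ⊢
          intro x hx
          rw [AddChar.mul_apply, AddChar.inv_apply, hχ x hx, h2 (-x) (U.neg_mem hx), one_mul]
        · intro χ _; simp
        · intro χ _; simp
        · intro χ _; rw [AddChar.mul_apply]
      rw [eq_zero_of_mul_eq_self_left h3 h4]
      simp
    · push Not at h1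
      rw [sum_congr rfl h1]
      simp
  have h1 : ∑ χ ∈ TU, T D π c χ = ∑ x : ZMod p, ∑ f ∈ Fintype.piFinset (fun _ : Fin 4 => D.filter fun d => π d = x),
      ∑ χ ∈ TU, χ (∑ i, c i • f i) := by
    unfold T
    rw [sum_comm]
    apply sum_congr rfl
    intro x _
    rw [sum_comm]
    apply sum_congr rfl
    intro χ _
    unfold S cs
    rw [prod_univ_sum]
    apply sum_congr rfl
    intro f _
    rw [Fin.prod_univ_four, Fin.sum_univ_four]
    simp only [AddChar.map_add_eq_mul, AddChar.pow_apply, AddChar.map_nsmul_eq_pow]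
  rw [h1]
  rw [Complex.re_sum]
  apply sum_nonneg
  intro x _
  rw [Complex.re_sum]
  apply sum_nonneg
  intro f _
  exact h0 _

end

end Pool.Agent.H45.R4
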