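import Mathlib
import Pool.Agent.H56.RDSFinal
import Pool.Agent.H45.R4.SignB

set_option autoImplicit false
set_option linter.unusedSectionVars false

open Finset

namespace Pool.Agent.H45.R4

open Pool.Agent.H56.RDS

lemma arith (n p m : ℝ) (hp5 : 5 ≤ p) (hn : p ^ 3 ≤ n)
    (hM : p * m * p ^ 2 ≤ n ^ 4 + 8 * n ^ 3 * p + 3 * n ^ 2 * p ^ 3)
    (h8 : 0 ≤ -(n ^ 2 * p * n ^ 2) + 2 * n ^ 2 * n ^ 2 + 2 * n ^ 3 * p ^ 2 + p * m * p ^ 2) : False := by
  have hn0 : 0 < n := lt_of_lt_of_le (by positivity) hn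
  have h1 : 0 ≤ n ^ 2 * (-((p - 3) * n ^ 2) + n * (2 * p ^ 2 + 8 * p) + 3 * p ^ 3) := by
    have h2 : n ^ 2 * (-((p - 3) * n ^ 2) + n * (2 * p ^ 2 + 8 * p) + 3 * p ^ 3)
        = -(n ^ 2 * p * n ^ 2) + 2 * n ^ 2 * n ^ 2 + 2 * n ^ 3 * p ^ 2 + (n ^ 4 + 8 * n ^ 3 * p + 3 * n ^ 2 * p ^ 3) := by
      ring
    rw [h2]; linarith
  have h3 : 0 ≤ -((p - 3) * n ^ 2) + n * (2 * p ^ 2 + 8 * p) + 3 * p ^ 3 := by
    by_contra hcon
    push Not at hcon
    have := mul_neg_of_pos_of_neg (pow_pos hn0 2) hcon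
    linarith
  have h4 : 2 * p ^ 3 ≤ (p - 3) * n := by
    calc 2 * p ^ 3 ≤ 2 * n := by linarith
      _ ≤ (p - 3) * n := mul_le_mul_of_nonneg_right (by linarith) hn0.le
  have h5 : 2 * p ^ 3 * n ≤ (p - 3) * n ^ 2 := by
    calc 2 * p ^ 3 * n ≤ ((p - 3) * n) * n := mul_le_mul_of_nonneg_right h4 hn0.le
      _ = _ := by ring
  have h6 : 2 * p ^ 2 + 8 * p + 3 < 2 * p ^ 3 := by
    have h7 : 5 * p ^ 2 ≤ p ^ 3 := by
      calc 5 * p ^ 2 ≤ p * p ^ 2 := mul_le_mul_of_nonneg_right hp5 (by positivity)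
        _ = _ := by ring
    have h8 : 5 * p ≤ p ^ 2 := by
      calc 5 * p ≤ p * p := mul_le_mul_of_nonneg_right hp5 (by linarith)
        _ = _ := by ring
    linarith
  have h7 : (2 * p ^ 2 + 8 * p + 3) * n < 2 * p ^ 3 * n := mul_lt_mul_of_pos_right h6 hn0
  have h9 : 3 * p ^ 3 ≤ 3 * n := by linarith
  nlinarith

section
variable {p : ℕ} [hp : Fact p.Prime] {G : Type} [AddCommGroup G] [Fintype G] [DecidableEq G]
variable {k b : ℕ} {N U P : AddSubgroup G} {D : Finset G} {π : G →+ ZMod p}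

theorem no_setup (hS : Setup p k b G N U P D π) (hb3 : 3 ≤ b) : False := by
  classical
  have hpp := hp.out
  have hp0 : (0 : ℝ) < p := by exact_mod_cast hpp.pos
  have hp5 : (5 : ℝ) ≤ p := by exact_mod_cast hS.p5
  obtain ⟨c, hc, hsum, hprod⟩ := exists_coef p k hS.p5 hS.k1
  set TU : Finset (AddChar G ℂ) := univ.filter (fun χ => ∀ x ∈ U, χ x = 1) with hTU
  set TP : Finset (AddChar G ℂ) := univ.filter (fun χ => ∀ x ∈ P, χ x = 1) with hTP
  set TN : Finset (AddChar G ℂ) := univ.filter (fun χ => ∀ x ∈ N, χ x = 1) with hTN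
  set n : ℝ := (p : ℝ) ^ b with hn
  have hn0 : 0 < n := pow_pos hp0 _
  have hn2 : (p : ℝ) ^ (2 * b) = n ^ 2 := by rw [hn, ← pow_mul, mul_comm]
  have hcU : (TU.card : ℝ) * p = n ^ 2 := by
    have := card_annihilator U
    rw [hS.cardU, hS.cardG] at this
    rw [← hn2]; exact_mod_cast this
  have hcP : (TP.card : ℝ) * p ^ 2 = n ^ 2 := by
    have := card_annihilator P
    rw [hS.cardP, hS.cardG] at this
    rw [← hn2]; exact_mod_cast this
  have hcN : (TN.card : ℝ) = n := by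
    have h1 := card_annihilator N
    rw [hS.cardN, hS.cardG] at h1
    have h2 : p ^ (2 * b) = p ^ b * p ^ b := by rw [two_mul, pow_add]
    rw [h2] at h1
    have h3 := Nat.eq_of_mul_eq_mul_right (pow_pos hpp.pos _) h1
    rw [hn]; exact_mod_cast h3
  set A : Finset (AddChar G ℂ) := TU.filter (fun χ => χ ∉ TP ∧ χ ∉ TN) with hA
  set B : Finset (AddChar G ℂ) := TU.filter (fun χ => ¬ (χ ∉ TP ∧ χ ∉ TN)) with hB
  have hAB : A.card + B.card = TU.card := card_filter_add_card_filter_not _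
  have hBc : B.card ≤ TP.card + TN.card := by
    refine (card_le_card ?_).trans (card_union_le TP TN)
    intro χ hχ
    have := (mem_filter.mp hχ).2
    rw [mem_union]
    tauto
  set L : Finset (AddChar G ℂ) := univ.image (lam π) with hL
  have hLc : (L.card : ℝ) ≤ p := by
    have : L.card ≤ p := by
      refine (card_image_le).trans ?_
      rw [card_univ, AddChar.card_eq, ZMod.card]
    exact_mod_cast this
  have hM0 : 0 ≤ M0 D π := sum_nonneg fun _ _ => by positivity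
  -- the main characters
  have hTA : ∀ χ ∈ A, (T D π c χ).re = -n ^ 2 := by
    intro χ hχ
    obtain ⟨h1, h2, h3⟩ := mem_filter.mp hχ
    have h1' : ∀ x ∈ U, χ x = 1 := (mem_filter.mp h1).2
    have h2' : ∃ x ∈ P, χ x ≠ 1 := by
      by_contra hcon
      push Not at hcon
      exact h2 (mem_filter.mpr ⟨mem_univ _, hcon⟩)
    have h3' : ∃ x ∈ N, χ x ≠ 1 := by
      by_contra hcon
      push Not at hcon
      exact h3 (mem_filter.mpr ⟨mem_univ _, hcon⟩)
    rw [T_main hS c hc hsum hprod χ h1' h2' h3']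
    have : -(p : ℂ) ^ (2 * b) = ((-(p : ℝ) ^ (2 * b) : ℝ) : ℂ) := by push_cast; rfl
    rw [this, Complex.ofReal_re, hn2]
  have hTB : ∀ χ ∈ B, (T D π c χ).re ≤ n ^ 2 + (if χ ∈ L then M0 D π else 0) := by
    intro χ _
    refine (Complex.re_le_norm _).trans ?_
    by_cases h1 : χ ∈ L
    · rw [if_pos h1]
      obtain ⟨ψ, _, rfl⟩ := mem_image.mp h1
      have := T_le_lam (D := D) (π := π) c ψ
      have : (0 : ℝ) ≤ n ^ 2 := by positivity
      linarith
    · rw [if_neg h1, add_zero, ← hn2]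
      apply T_le hS c hc
      intro ψ h2
      exact h1 (mem_image.mpr ⟨ψ, mem_univ _, h2.symm⟩)
  have hpos := pos (U := U) (D := D) (π := π) TU (fun χ => by rw [hTU, mem_filter]; simp) c
  have hsplit : (∑ χ ∈ TU, T D π c χ).re = ∑ χ ∈ A, (T D π c χ).re + ∑ χ ∈ B, (T D π c χ).re := by
    rw [Complex.re_sum, hA, hB]
    exact (sum_filter_add_sum_filter_not TU _ _).symm
  have h1 : ∑ χ ∈ A, (T D π c χ).re = -(A.card * n ^ 2) := by
    rw [sum_congr rfl hTA, sum_const, nsmul_eq_mul]; ring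
  have h2 : ∑ χ ∈ B, (T D π c χ).re ≤ B.card * n ^ 2 + p * M0 D π := by
    refine (sum_le_sum hTB).trans ?_
    rw [sum_add_distrib, sum_const, nsmul_eq_mul]
    have h3 : ∑ χ ∈ B, (if χ ∈ L then M0 D π else 0) ≤ L.card * M0 D π := by
      rw [← sum_filter, sum_const, nsmul_eq_mul]
      apply mul_le_mul_of_nonneg_right _ hM0
      have : (B.filter (fun χ => χ ∈ L)).card ≤ L.card := card_le_card fun χ hχ => (mem_filter.mp hχ).2
      exact_mod_cast this
    have h4 : (L.card : ℝ) * M0 D π ≤ p * M0 D π := mul_le_mul_of_nonneg_right hLc hM0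
    linarith
  rw [hsplit, h1] at hpos
  have hABr : (A.card : ℝ) + B.card = TU.card := by exact_mod_cast hAB
  have hBcr : (B.card : ℝ) ≤ TP.card + TN.card := by exact_mod_cast hBc
  have hmain : 0 ≤ -((TU.card - B.card) * n ^ 2) + B.card * n ^ 2 + p * M0 D π := by
    have : (A.card : ℝ) = TU.card - B.card := by linarith
    rw [← this]; linarith
  have hmain2 : 0 ≤ -(TU.card * n ^ 2) + 2 * (TP.card + n) * n ^ 2 + p * M0 D π := by
    have h3 : (B.card : ℝ) * n ^ 2 ≤ (TP.card + n) * n ^ 2 := by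
      apply mul_le_mul_of_nonneg_right _ (by positivity)
      rw [← hcN]; exact hBcr
    linarith
  have hM := M0_le hS
  have h6 : (p : ℝ) ^ (4 * b) = n ^ 4 := by rw [hn, ← pow_mul, mul_comm]
  have h7 : (p : ℝ) ^ (3 * b) = n ^ 3 := by rw [hn, ← pow_mul, mul_comm]
  rw [h6, h7, hn2] at hM
  have h8 : 0 ≤ (-(TU.card * n ^ 2) + 2 * (TP.card + n) * n ^ 2 + p * M0 D π) * p ^ 2 :=
    mul_nonneg hmain2 (by positivity)
  have h9 : (-(TU.card * n ^ 2) + 2 * (TP.card + n) * n ^ 2 + p * M0 D π) * p ^ 2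
      = -((TU.card * p) * p * n ^ 2) + 2 * (TP.card * p ^ 2) * n ^ 2 + 2 * n ^ 3 * p ^ 2 + p * M0 D π * p ^ 2 := by ring
  rw [h9, hcU, hcP] at h8
  have h12 : (p : ℝ) ^ 3 ≤ n := by
    rw [hn]; exact pow_le_pow_right₀ (by linarith) hb3
  exact arith n p (M0 D π) hp5 h12 hM h8

end

/-- construction of the projection -/
theorem exists_setup {p : ℕ} [hp : Fact p.Prime] {G : Type} [AddCommGroup G] [Fintype G] [DecidableEq G]
    {k b : ℕ} (N P : AddSubgroup G) (D : Finset G) (p5 : 5 ≤ p) (k1 : 1 ≤ k) (hb : Odd b)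
    (cardG : Fintype.card G = p ^ (2 * b)) (cardN : Nat.card N = p ^ b) (cardD : D.card = p ^ b)
    (rep1 : ∀ g : G, g ∉ N → ((D ×ˢ D).filter (fun x => x.1 - x.2 = g)).card = 1)
    (rep0 : ∀ g : G, g ∈ N → g ≠ 0 → ((D ×ˢ D).filter (fun x => x.1 - x.2 = g)).card = 0)
    (expo : ∀ g : G, p ^ (k + 1) • g = 0) (memP : ∀ g : G, p ^ k • g ∈ P)
    (surP : ∀ a ∈ P, ∃ g : G, p ^ k • g = a) (cardP : Nat.card P = p ^ 2) :
    ∃ (U : AddSubgroup G) (π : G →+ ZMod p), Setup p k b G N U P D π := by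
  classical
  have hpp := hp.out
  -- an element of order `p`
  obtain ⟨a, ha0⟩ : ∃ a : P, a ≠ 0 := by
    by_contra hcon
    push Not at hcon
    have : Nat.card P = 1 := by
      rw [Nat.card_eq_one_iff_unique]
      exact ⟨⟨fun x y => by rw [hcon x, hcon y]⟩, ⟨0⟩⟩
    rw [this] at cardP
    have := Nat.one_lt_pow (n := 2) (by norm_num) hpp.one_lt
    omega
  have hpa : ∀ x : P, p • x = 0 := by
    intro x
    obtain ⟨g, hg⟩ := surP x x.2
    apply Subtype.ext
    show p • (x : G) = 0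
    rw [← hg, ← mul_nsmul', ← pow_succ', expo]
  have horda : addOrderOf a = p := addOrderOf_eq_prime (hpa a) ha0
  set U' : AddSubgroup P := AddSubgroup.zmultiples a with hU'
  have cU' : Nat.card U' = p := by rw [hU', Nat.card_zmultiples, horda]
  have cQ : Nat.card (P ⧸ U') = p := by
    have h1 := AddSubgroup.card_eq_card_quotient_mul_card_addSubgroup U'
    rw [cU', cardP, sq] at h1
    exact (Nat.eq_of_mul_eq_mul_right hpp.pos h1).symm
  have cZ : Nat.card (ZMod p) = p := by rw [Nat.card_eq_fintype_card, ZMod.card]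
  let e : (P ⧸ U') ≃+ ZMod p := addEquivOfPrimeCardEq cQ cZ
  let qh : G →+ P := (nsmulAddMonoidHom (α := G) (p ^ k)).codRestrict P memP
  have hqh : ∀ g, ((qh g : P) : G) = p ^ k • g := fun g => rfl
  let π : G →+ ZMod p := (e.toAddMonoidHom.comp (QuotientAddGroup.mk' U')).comp qh
  refine ⟨U'.map P.subtype, π, ?_⟩
  refine { p5 := p5, k1 := k1, hb := hb, cardG := cardG, cardN := cardN, cardD := cardD, rep1 := rep1, rep0 := rep0,
           expo := expo, memP := memP, surP := surP, cardP := cardP, cardU := ?_, leU := ?_, hπ := ?_, sπ := ?_ }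
  · rw [← cU']
    exact (Nat.card_congr (U'.equivMapOfInjective P.subtype P.subtype_injective).toEquiv).symm
  · rintro x ⟨y, _, rfl⟩
    exact y.2
  · intro g
    constructor
    · intro h
      have h1 : e (QuotientAddGroup.mk' U' (qh g)) = 0 := h
      have h2 : QuotientAddGroup.mk' U' (qh g) = 0 := by
        rw [← map_zero e] at h1; exact e.injective h1
      have h3 : qh g ∈ U' := (QuotientAddGroup.eq_zero_iff _).mp h2
      exact ⟨qh g, h3, hqh g⟩
    · rintro ⟨y, hy, hy'⟩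
      have h1 : y = qh g := Subtype.ext (by rw [hqh]; exact hy')
      show e (QuotientAddGroup.mk' U' (qh g)) = 0
      have h2 : QuotientAddGroup.mk' U' (qh g) = 0 := (QuotientAddGroup.eq_zero_iff _).mpr (by rw [← h1]; exact hy)
      rw [h2, map_zero]
  · intro x
    obtain ⟨y, hy⟩ := e.surjective x
    obtain ⟨w, hw⟩ := QuotientAddGroup.mk'_surjective U' y
    obtain ⟨g, hg⟩ := surP w w.2
    refine ⟨g, ?_⟩
    show e (QuotientAddGroup.mk' U' (qh g)) = x
    have : qh g = w := Subtype.ext (by rw [hqh]; exact hg)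
    rw [this, hw, hy]

end Pool.Agent.H45.R4
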