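import Mathlib
import Pool.Agent.H45.R4.Chr

set_option autoImplicit false

open Finset NumberField

namespace Pool.Agent.H45.R4

open Pool.Agent.H56.RDS

lemma gb_eval {R : Type} [CommRing R] (q : R) (n j : ℕ) (hj : j ≤ n) :
    ∏ m ∈ range j, (q ^ (n + 1) - q ^ (m + 1))
      = (∏ m ∈ range j, q ^ (m + 1)) * (gb q n j * ∏ m ∈ range j, (q ^ (m + 1) - 1)) := by
  rw [gb_prod, ← prod_mul_distrib]
  apply prod_congr rfl
  intro m hm
  rw [mem_range] at hm
  have : q ^ (n + 1) = q ^ (m + 1) * q ^ (n - m) := by rw [← pow_add]; congr 1; omega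
  rw [this]; ring

/-- the weight bound, with a given cyclotomic field -/
theorem weightK {p b k : ℕ} [hp : Fact p.Prime] (K : Type) [Field K] [NumberField K]
    [IsCyclotomicExtension {p ^ (k + 1)} ℚ K] (hp2 : p ≠ 2) {G : Type} [AddCommGroup G] [Fintype G] [DecidableEq G]
    (N : AddSubgroup G) (D : Finset G) (hcD : D.card = p ^ b) (hcN : Nat.card N = p ^ b)
    (hD1 : ∀ g : G, g ∉ N → ((D ×ˢ D).filter (fun x => x.1 - x.2 = g)).card = 1)
    (hD0 : ∀ g : G, g ∈ N → g ≠ 0 → ((D ×ˢ D).filter (fun x => x.1 - x.2 = g)).card = 0)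
    {ι : Type} [Fintype ι] (kk ll : ι → ℕ) (hll : ∀ i, ll i ≤ kk i) (f : ∀ i, G →+ ZMod (p ^ kk i))
    (hker : ∀ g, g ∈ N ↔ ∀ i, p ^ (kk i - ll i) • f i g = 0) (hk : ∀ i, kk i ≤ k) :
    b * p ^ k ≤ 2 * ∑ i, p ^ (k + 1 - kk i) * (ll i * p ^ (ll i - 1)) := by
  classical
  have hpp := hp.out
  have hp2' : 2 ≤ p := hpp.two_le
  obtain ⟨h, hh⟩ : ∃ h, p - 1 = 2 * h := by
    obtain ⟨w, hw⟩ := hpp.odd_of_ne_two hp2
    exact ⟨w, by omega⟩
  have hpos : 0 < h := by
    rcases Nat.eq_zero_or_pos h with h0 | h0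
    · omega
    · exact h0
  have hz : IsPrimitiveRoot (IsCyclotomicExtension.zeta (p ^ (k + 1)) ℚ K) (p ^ (k + 1)) :=
    IsCyclotomicExtension.zeta_spec _ _ _
  have hfr : Module.finrank ℚ K = p ^ k * (p - 1) := by
    rw [IsCyclotomicExtension.Rat.finrank (p ^ (k + 1)) K, Nat.totient_prime_pow hpp (by omega)]
    simp
  set T : ℕ := b * (p ^ k * h) with hTdef
  have hT : 2 * T = b * Module.finrank ℚ K := by rw [hfr, hh, hTdef]; ring
  set lam : 𝓞 K := hz.toInteger - 1 with hlam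
  have hlamP : Prime lam := hz.zeta_sub_one_prime
  have hplam : lam ∣ (p : 𝓞 K) := by
    have h1 := assoc_p K hz
    have h2 : 0 < Module.finrank ℚ K := Module.finrank_pos
    exact (dvd_pow_self lam h2.ne').trans h1.symm.dvd
  -- the roots of unity
  let q : ι → 𝓞 K := fun i => hz.toInteger ^ (p ^ (k + 1 - kk i))
  have hq : ∀ i, q i ^ (p ^ kk i) = 1 := by
    intro i
    show (hz.toInteger ^ (p ^ (k + 1 - kk i))) ^ (p ^ kk i) = 1
    rw [← pow_mul, ← pow_add, Nat.sub_add_cancel ((hk i).trans (by omega))]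
    exact hz.toInteger_isPrimitiveRoot.pow_eq_one
  have hnz : ∀ i, NeZero (p ^ kk i) := fun i => ⟨(pow_pos hpp.pos _).ne'⟩
  let chi : ι → AddChar G (𝓞 K) := fun i => (AddChar.zmodChar (p ^ kk i) (hq i)).compAddMonoidHom (f i)
  let y : ι → G → ℕ := fun i g => (f i g).val + p ^ kk i
  have hchi : ∀ i g, chi i g = q i ^ (y i g) := by
    intro i g
    show (AddChar.zmodChar (p ^ kk i) (hq i)) (f i g) = _
    rw [AddChar.zmodChar_apply]
    show q i ^ (f i g).val = q i ^ ((f i g).val + p ^ kk i)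
    exact (by rw [pow_add, hq, mul_one] : q i ^ ((f i g).val + p ^ kk i) = q i ^ (f i g).val).symm
  let j : ι → ℕ := fun i => p ^ ll i - 1
  have hjy : ∀ i g, j i ≤ y i g - 1 := by
    intro i g
    show p ^ ll i - 1 ≤ (f i g).val + p ^ kk i - 1
    have : p ^ ll i ≤ p ^ kk i := Nat.pow_le_pow_right hpp.pos (hll i)
    omega
  have hy1 : ∀ i g, y i g - 1 + 1 = y i g := by
    intro i g
    have : 0 < p ^ kk i := pow_pos hpp.pos _
    show (f i g).val + p ^ kk i - 1 + 1 = (f i g).val + p ^ kk i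
    omega
  let H : G → 𝓞 K := fun g => ∏ i, gb (q i) (y i g - 1) (j i)
  let P : 𝓞 K := ∏ i, ∏ m ∈ range (j i), (q i ^ (m + 1) - 1)
  let U : 𝓞 K := ∏ i, ∏ m ∈ range (j i), q i ^ (m + 1)
  have hprod : ∀ g, ∏ i, ∏ m ∈ range (j i), (chi i g - q i ^ (m + 1)) = U * (H g * P) := by
    intro g
    show _ = (∏ i, ∏ m ∈ range (j i), q i ^ (m + 1)) * ((∏ i, gb (q i) (y i g - 1) (j i)) *
      ∏ i, ∏ m ∈ range (j i), (q i ^ (m + 1) - 1))
    rw [← prod_mul_distrib, ← prod_mul_distrib]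
    apply prod_congr rfl
    intro i _
    rw [← gb_eval (q i) (y i g - 1) (j i) (hjy i g), hchi, hy1]
  -- a base point
  have hDne : D.Nonempty := by
    rw [← card_pos, hcD]; exact pow_pos hpp.pos _
  obtain ⟨g0, hg0⟩ := hDne
  have hsum : lam ^ T ∣ U * ((∑ d ∈ D, H (d - g0)) * P) := by
    have h1 := expand (G := G) (R := 𝓞 K) (univ.sigma fun i => range (j i)) (fun a => chi a.1)
      (fun a => q a.1 ^ (a.2 + 1)) (Ideal.span {lam ^ T}) D
      (fun ψ => by
        rw [Ideal.mem_span_singleton]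
        exact char_dvd K hp2 hz b T hT N D hcD hcN hD1 hD0 ψ) g0
    rw [Ideal.mem_span_singleton] at h1
    have h2 : ∑ d ∈ D, ∏ a ∈ univ.sigma fun i => range (j i), (chi a.1 (d - g0) - q a.1 ^ (a.2 + 1))
        = U * ((∑ d ∈ D, H (d - g0)) * P) := by
      rw [sum_mul, mul_sum]
      apply sum_congr rfl
      intro d _
      rw [prod_sigma]
      exact hprod (d - g0)
    rwa [h2] at h1
  -- the sum is one modulo `lam`
  have hmod : ∀ g, lam ∣ H g - (if g ∈ N then 1 else 0) := by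
    intro g
    rw [← Ideal.mem_span_singleton, ← Ideal.Quotient.eq_zero_iff_mem, map_sub, sub_eq_zero]
    set φ := Ideal.Quotient.mk (Ideal.span {lam}) with hφ
    have hpφ : (p : 𝓞 K ⧸ Ideal.span {lam}) = 0 := by
      have : φ (p : 𝓞 K) = 0 := Ideal.Quotient.eq_zero_iff_mem.mpr (Ideal.mem_span_singleton.mpr hplam)
      simpa using this
    have hqφ : ∀ i, φ (q i) = 1 := by
      intro i
      have h1 : φ hz.toInteger = 1 := by
        have : φ (hz.toInteger - 1) = 0 :=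
          Ideal.Quotient.eq_zero_iff_mem.mpr (Ideal.mem_span_singleton.mpr dvd_rfl)
        rw [map_sub, map_one, sub_eq_zero] at this
        exact this
      show φ (hz.toInteger ^ _) = 1
      rw [map_pow, h1, one_pow]
    have hcast : ∀ a c : ℕ, ((a : ZMod p) = c) → (a : 𝓞 K ⧸ Ideal.span {lam}) = c := by
      intro a c hac
      have h1 : (p : ℤ) ∣ (a : ℤ) - c := by
        have h2 : (((a : ℤ) - c : ℤ) : ZMod p) = 0 := by push_cast; rw [hac, sub_self]
        exact (ZMod.intCast_zmod_eq_zero_iff_dvd _ _).mp h2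
      obtain ⟨w, hw⟩ := h1
      have h3 : (((a : ℤ) - c : ℤ) : 𝓞 K ⧸ Ideal.span {lam}) = 0 := by
        rw [hw]; push_cast; rw [hpφ, zero_mul]
      push_cast at h3
      exact sub_eq_zero.mp h3
    have h1 : φ (H g) = ∏ i, (if p ^ ll i ∣ y i g then (1 : 𝓞 K ⧸ Ideal.span {lam}) else 0) := by
      show φ (∏ i, gb (q i) (y i g - 1) (j i)) = _
      rw [map_prod]
      apply prod_congr rfl
      intro i _
      rw [gb_map φ (q i) (hqφ i)]
      have h2 := lucas_ind p (ll i) (y i g) (by have := hy1 i g; omega)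
      by_cases h3 : p ^ ll i ∣ y i g
      · rw [if_pos h3] at h2 ⊢
        have := hcast ((y i g - 1).choose (j i)) 1 (by rw [h2]; simp)
        simpa using this
      · rw [if_neg h3] at h2 ⊢
        have := hcast ((y i g - 1).choose (j i)) 0 (by rw [h2]; simp)
        simpa using this
    have h4 : ∀ i, p ^ ll i ∣ y i g ↔ p ^ (kk i - ll i) • f i g = 0 := by
      intro i
      have h5 : p ^ (kk i - ll i) • f i g = ((p ^ (kk i - ll i) * (f i g).val : ℕ) : ZMod (p ^ kk i)) := by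
        rw [nsmul_eq_mul]; push_cast; rw [ZMod.natCast_zmod_val]
      rw [h5, ZMod.natCast_eq_zero_iff]
      have h6 : p ^ kk i = p ^ (kk i - ll i) * p ^ ll i := by
        rw [← pow_add, Nat.sub_add_cancel (hll i)]
      have h7 : p ^ kk i ∣ p ^ (kk i - ll i) * (f i g).val ↔ p ^ ll i ∣ (f i g).val := by
        have h8 : ∀ a c m : ℕ, a = c * m → 0 < c → ∀ v, a ∣ c * v ↔ m ∣ v := by
          intro a c m h9 h10 v
          rw [h9]
          exact mul_dvd_mul_iff_left h10.ne'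
        exact h8 _ _ _ h6 (pow_pos hpp.pos _) _
      rw [h7]
      show p ^ ll i ∣ (f i g).val + p ^ kk i ↔ _
      exact (Nat.dvd_add_left (pow_dvd_pow p (hll i)))
    rw [h1]
    by_cases hgN : g ∈ N
    · rw [if_pos hgN, map_one]
      apply prod_eq_one
      intro i _
      rw [if_pos ((h4 i).mpr ((hker g).mp hgN i))]
    · rw [if_neg hgN, map_zero]
      have h5 : ¬ ∀ i, p ^ (kk i - ll i) • f i g = 0 := fun hc => hgN ((hker g).mpr hc)
      push Not at h5
      obtain ⟨i, hi⟩ := h5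
      apply prod_eq_zero (mem_univ i)
      rw [if_neg (fun hc => hi ((h4 i).mp hc))]
  have hone : lam ∣ (∑ d ∈ D, H (d - g0)) - 1 := by
    have h1 : ∑ d ∈ D, (if d - g0 ∈ N then (1 : 𝓞 K) else 0) = 1 := by
      rw [sum_eq_single g0]
      · simp
      · intro d hd hne
        rw [if_neg]
        intro hc
        have h2 := hD0 (d - g0) hc (sub_ne_zero.mpr hne)
        rw [card_eq_zero, filter_eq_empty_iff] at h2
        exact h2 (mem_product.mpr ⟨hd, hg0⟩ : (d, g0) ∈ D ×ˢ D) rfl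
      · intro hc; exact absurd hg0 hc
    rw [← h1, ← sum_sub_distrib]
    exact dvd_sum fun d _ => hmod (d - g0)
  have hS : ¬ lam ∣ ∑ d ∈ D, H (d - g0) := by
    intro hc
    have h1 : lam ∣ 1 := by
      have := dvd_sub hc hone
      simpa using this
    exact hlamP.not_isUnit (isUnit_of_dvd_one h1)
  have hU : IsUnit U := by
    show IsUnit (∏ i, ∏ m ∈ range (j i), q i ^ (m + 1))
    apply Finset.prod_induction _ IsUnit (fun a b => IsUnit.mul) isUnit_one
    intro i _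
    apply Finset.prod_induction _ IsUnit (fun a b => IsUnit.mul) isUnit_one
    intro m _
    exact (IsUnit.of_pow_eq_one (hq i) (pow_pos hpp.pos _).ne').pow _
  have hP : lam ^ T ∣ P := by
    have h1 : lam ^ T ∣ (∑ d ∈ D, H (d - g0)) * P := by
      exact (hU.dvd_mul_left).mp hsum
    exact hlamP.pow_dvd_of_dvd_mul_left T hS h1
  -- norms
  have hNl : Algebra.norm ℤ lam = p := by
    have := hz.norm_toInteger_pow_sub_one_of_prime_ne_two (s := 0) (Nat.zero_le _) hp2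
    simpa using this
  have hNP : Algebra.norm ℤ P = (p : ℤ) ^ (∑ i, p ^ (k + 1 - kk i) * (ll i * p ^ (ll i - 1) * (p - 1))) := by
    show Algebra.norm ℤ (∏ i, ∏ m ∈ range (j i), (q i ^ (m + 1) - 1)) = _
    rw [map_prod, ← prod_pow_eq_pow_sum]
    apply prod_congr rfl
    intro i _
    rw [map_prod, ← sum_pow_val p (ll i), mul_sum, ← prod_pow_eq_pow_sum]
    apply prod_congr rfl
    intro m hm
    have hm' : m < p ^ ll i - 1 := mem_range.mp hm
    have h1 : q i ^ (m + 1) - 1 = hz.toInteger ^ (p ^ (k + 1 - kk i) * (m + 1)) - 1 := by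
      show (hz.toInteger ^ (p ^ (k + 1 - kk i))) ^ (m + 1) - 1 = _
      rw [← pow_mul]
    have h2 : padicValNat p (p ^ (k + 1 - kk i) * (m + 1)) = (k + 1 - kk i) + padicValNat p (m + 1) := by
      rw [padicValNat.mul (pow_pos hpp.pos _).ne' (by omega), padicValNat.prime_pow]
    have h3 : padicValNat p (m + 1) < ll i := by
      by_contra hc
      push Not at hc
      have h4 : p ^ ll i ∣ m + 1 := (pow_dvd_pow p hc).trans pow_padicValNat_dvd
      have := Nat.le_of_dvd (by omega) h4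
      omega
    have h4 := hll i
    have h5 := hk i
    have h6 : p ^ (k + 1 - kk i) * (m + 1) ≠ 0 := (Nat.mul_pos (pow_pos hpp.pos _) (by omega)).ne'
    rw [h1, norm_pow_sub_one K hp2 hz _ h6 (by rw [h2]; omega), h2, pow_add]
  have hdvd : (p : ℤ) ^ T ∣ (p : ℤ) ^ (∑ i, p ^ (k + 1 - kk i) * (ll i * p ^ (ll i - 1) * (p - 1))) := by
    rw [← hNP, ← hNl, ← map_pow]
    exact MonoidHom.map_dvd (Algebra.norm ℤ) hP
  have hle : T ≤ ∑ i, p ^ (k + 1 - kk i) * (ll i * p ^ (ll i - 1) * (p - 1)) := by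
    have h1 : p ^ T ∣ p ^ (∑ i, p ^ (k + 1 - kk i) * (ll i * p ^ (ll i - 1) * (p - 1))) := by exact_mod_cast hdvd
    exact (Nat.pow_dvd_pow_iff_le_right hpp.one_lt).mp h1
  have h8 : ∑ i, p ^ (k + 1 - kk i) * (ll i * p ^ (ll i - 1) * (p - 1))
      = (∑ i, p ^ (k + 1 - kk i) * (ll i * p ^ (ll i - 1))) * (2 * h) := by
    rw [sum_mul]
    apply sum_congr rfl
    intro i _
    rw [hh]; ring
  rw [h8, hTdef] at hle
  have h9 : b * p ^ k * h ≤ (2 * ∑ i, p ^ (k + 1 - kk i) * (ll i * p ^ (ll i - 1))) * h := by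
    calc b * p ^ k * h = b * (p ^ k * h) := by ring
      _ ≤ _ := hle
      _ = _ := by ring
  exact Nat.le_of_mul_le_mul_right h9 hpos

/-- the weight bound -/
theorem weight {p b : ℕ} [hp : Fact p.Prime] (hp2 : p ≠ 2) {G : Type} [AddCommGroup G] [Fintype G] [DecidableEq G]
    (N : AddSubgroup G) (D : Finset G) (hcD : D.card = p ^ b) (hcN : Nat.card N = p ^ b)
    (hD1 : ∀ g : G, g ∉ N → ((D ×ˢ D).filter (fun x => x.1 - x.2 = g)).card = 1)
    (hD0 : ∀ g : G, g ∈ N → g ≠ 0 → ((D ×ˢ D).filter (fun x => x.1 - x.2 = g)).card = 0)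
    {ι : Type} [Fintype ι] (kk ll : ι → ℕ) (hll : ∀ i, ll i ≤ kk i) (f : ∀ i, G →+ ZMod (p ^ kk i))
    (hker : ∀ g, g ∈ N ↔ ∀ i, p ^ (kk i - ll i) • f i g = 0) :
    (b : ℚ) ≤ 2 * ∑ i, (ll i : ℚ) / (p : ℚ) ^ (kk i - ll i) := by
  have hpp := hp.out
  have hk : ∀ i, kk i ≤ ∑ i, kk i := fun i => single_le_sum (fun _ _ => Nat.zero_le _) (mem_univ i)
  have hne : NeZero (p ^ (∑ i, kk i + 1)) := ⟨(pow_pos hpp.pos _).ne'⟩
  have c1 : @IsCyclotomicExtension {p ^ (∑ i, kk i + 1)} ℚ (CyclotomicField (p ^ (∑ i, kk i + 1)) ℚ) _ _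
      (CyclotomicField.algebra _ _) := inferInstance
  have c2 : (CyclotomicField.algebra (p ^ (∑ i, kk i + 1)) ℚ :
      Algebra ℚ (CyclotomicField (p ^ (∑ i, kk i + 1)) ℚ)) = DivisionRing.toRatAlgebra :=
    Subsingleton.elim _ _
  rw [c2] at c1
  have h1 := weightK (k := ∑ i, kk i) (CyclotomicField (p ^ (∑ i, kk i + 1)) ℚ) hp2 N D hcD hcN hD1 hD0 kk ll hll f
    hker hk
  have h2 : (b : ℚ) * (p : ℚ) ^ (∑ i, kk i)
      ≤ 2 * ∑ i, (p : ℚ) ^ (∑ i, kk i + 1 - kk i) * (ll i * (p : ℚ) ^ (ll i - 1)) := by exact_mod_cast h1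
  have hp0 : (0 : ℚ) < p := by exact_mod_cast hpp.pos
  have h3 : ∑ i, (p : ℚ) ^ (∑ i, kk i + 1 - kk i) * (ll i * (p : ℚ) ^ (ll i - 1))
      = (∑ i, (ll i : ℚ) / (p : ℚ) ^ (kk i - ll i)) * (p : ℚ) ^ (∑ i, kk i) := by
    rw [sum_mul]
    apply sum_congr rfl
    intro i _
    rcases Nat.eq_zero_or_pos (ll i) with h0 | h0
    · rw [h0]; simp
    · have h4 := hll i
      have h5 := hk i
      rw [div_mul_eq_mul_div, eq_div_iff (pow_pos hp0 _).ne']
      have h6 : (p : ℚ) ^ (∑ i, kk i + 1 - kk i) * (p : ℚ) ^ (ll i - 1) * (p : ℚ) ^ (kk i - ll i)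
          = (p : ℚ) ^ (∑ i, kk i) := by
        rw [← pow_add, ← pow_add]; congr 1; omega
      calc _ = (ll i : ℚ) * ((p : ℚ) ^ (∑ i, kk i + 1 - kk i) * (p : ℚ) ^ (ll i - 1) * (p : ℚ) ^ (kk i - ll i)) := by ring
        _ = _ := by rw [h6]
  rw [h3, ← mul_assoc] at h2
  exact le_of_mul_le_mul_right h2 (pow_pos hp0 _)

end Pool.Agent.H45.R4
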